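import Pool.Agent.Lib.MP_75a307_lc.RD

/-! Enumerations and inaccessible cardinals inside a model of ZFC. -/

set_option synthInstance.maxSize 100000
set_option linter.unusedVariables false
set_option linter.unusedSectionVars false

namespace Pool.Agent.Lib.MP_75a307_lc

open Pool.Agent.Lib.MP_1d770b_lc

universe u
variable {M : Type u} {E : M → M → Prop} [hZ : ZF E]

theorem rk_min (s : M) (h : ∃ z, E z s) : ∃ y, E y s ∧ ∀ z, E z s → ¬ RkLt E z y := by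
  obtain ⟨z, hz⟩ := h
  by_contra hn
  refine (wfRk E s).ind (fun x => False) (fun x hx H => hn ⟨x, hx, fun z hz h => H z ⟨hz, h⟩⟩) z hz

/-- rank increasing enumeration -/
theorem enum (hC : Choice E) (a : M) : ∃ c θ, IsOrd E θ ∧ Func E c a θ ∧ OneOne E c ∧
    (∀ y, E y θ → ∃ x, App E c x y) ∧
    ∀ x y x' y', App E c x y → App E c x' y' → RkLt E x x' → E y y' := by
  obtain ⟨p, hp⟩ := ex_pow E a
  obtain ⟨ch, -, ch1, ch2, ch3⟩ := ac hC p (fun s y => E y s ∧ ∀ z, E z s → ¬ RkLt E z y)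
  let S : M → M → M → Prop := fun f ξ y => ∃ s, (∀ z, E z s ↔ E z a ∧ ¬ ∃ η, E η ξ ∧ App E f η z) ∧
    (App E ch s y ∨ ((¬ ∃ z, E z s) ∧ y = a))
  have h : RecOK E (IsOrd E) E S :=
    { wfOrd E with
      dS := fun _ _ _ _ _ _ => by simp only [S]; infer_instance
      inv := fun f g x y _ H ⟨s, hs, hS⟩ => ⟨s, fun z => (hs z).trans (and_congr_right fun _ =>
        not_congr (exists_congr fun η => and_congr_right fun hη => H η hη z)), hS⟩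
      ex := fun f x _ _ => by
        obtain ⟨s, hs⟩ := sep E a (fun z => ¬ ∃ η, E η x ∧ App E f η z)
        by_cases hn : ∃ z, E z s
        · obtain ⟨y, hy⟩ := ch3 s ((hp s).2 fun z hz => ((hs z).1 hz).1) (rk_min s hn)
          exact ⟨y, s, hs, Or.inl hy⟩
        · exact ⟨a, s, hs, Or.inr ⟨hn, rfl⟩⟩
      uniq := fun f x y y' _ _ ⟨s, hs, h1⟩ ⟨s', hs', h2⟩ => by
        obtain rfl : s = s' := ext' E fun z => (hs z).trans (hs' z).symm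
        rcases h1 with h1 | ⟨h1, rfl⟩ <;> rcases h2 with h2 | ⟨h2, rfl⟩
        · exact ch1 _ _ _ h1 h2
        · exact (h2 ⟨_, (ch2 _ _ h1).2.1⟩).elim
        · exact (h1 ⟨_, (ch2 _ _ h2).2.1⟩).elim
        · rfl }
  have dH := h.dRec
  set H := Rec E (IsOrd E) E S
  have key : ∀ ξ y, H ξ y → (E y a ∧ (∀ η, E η ξ → ¬ H η y) ∧
      ∀ z, E z a → (∀ η, E η ξ → ¬ H η z) → ¬ RkLt E z y) ∨
      (y = a ∧ ∀ z, E z a → ∃ η, E η ξ ∧ H η z) := fun ξ y hy => by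
    obtain ⟨f, hf, s, hs, h1 | ⟨h1, rfl⟩⟩ := h.elim hy
    · obtain ⟨-, k1, k2⟩ := ch2 _ _ h1
      obtain ⟨k3, k4⟩ := (hs y).1 k1
      exact Or.inl ⟨k3, fun η hη k => k4 ⟨η, hη, (hf η hη y).2 k⟩, fun z hz k => k2 z
        ((hs z).2 ⟨hz, fun ⟨η, hη, k'⟩ => k η hη ((hf η hη z).1 k')⟩)⟩
    · refine Or.inr ⟨rfl, fun z hz => ?_⟩
      by_contra hn
      exact h1 ⟨z, (hs z).2 ⟨hz, fun ⟨η, hη, k⟩ => hn ⟨η, hη, (hf η hη z).1 k⟩⟩⟩
  have inj : ∀ z ξ ξ', E z a → H ξ z → H ξ' z → ξ = ξ' := fun z ξ ξ' hz h1 h2 => by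
    rcases h1.dom.tri h2.dom with k | k | k
    · rcases key _ _ h2 with k2 | k2
      · exact (k2.2.1 _ k h1).elim
      · exact (no1 (k2.1 ▸ hz)).elim
    · exact k
    · rcases key _ _ h1 with k2 | k2
      · exact (k2.2.1 _ k h2).elim
      · exact (no1 (k2.1 ▸ hz)).elim
  obtain ⟨b, hb⟩ := repl E a (fun z ξ => H ξ z) inj
  obtain ⟨c, hc, hcb⟩ := ord_bound E b
  obtain ⟨y, hy⟩ := h.total hc
  have hca : H c a := by
    rcases key _ _ hy with k | k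
    · exact (no1 (hcb c ((hb c).2 ⟨y, k.1, hy⟩) hc)).elim
    · exact k.1 ▸ hy
  obtain ⟨θ, hθ, hθa, hm⟩ := ord_min (fun ξ => H ξ a) hc hca
  obtain ⟨f, hf, hf'⟩ := ex_func a θ (fun z ξ => H ξ z) (fun z hz => by
    rcases key _ _ hθa with k | k
    · exact (no1 k.1).elim
    · exact k.2 z hz) (fun z ξ ξ' hz _ _ => inj z ξ ξ' hz)
  refine ⟨f, θ, hθ, hf, fun x x' y h1 h2 => h.fn ((hf' _ _).1 h1).2.2 ((hf' _ _).1 h2).2.2,
    fun ξ hξ => ?_, fun x y x' y' h1 h2 hlt => ?_⟩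
  · obtain ⟨z, hz⟩ := h.total (hθ.mem hξ)
    rcases key _ _ hz with k | k
    · exact ⟨z, (hf' _ _).2 ⟨k.1, hξ, hz⟩⟩
    · exact (hm ξ hξ (k.1 ▸ hz)).elim
  · obtain ⟨a1, a2, a3⟩ := (hf' _ _).1 h1
    obtain ⟨b1, b2, b3⟩ := (hf' _ _).1 h2
    by_contra hn
    rcases key _ _ b3 with k | k
    · exact k.2.2 x a1 (fun η hη k' => hn (inj x η y a1 k' a3 ▸ hη)) hlt
    · exact no1 (k.1 ▸ b1)

theorem cantor {a f : M} (h1 : OneOne E f) (h2 : ∀ s, Sub E s a → ∃ y, E y a ∧ App E f s y) :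
    False := by
  obtain ⟨r, hr⟩ := sep E a (fun y => ∃ s, App E f s y ∧ ¬ E y s)
  obtain ⟨y, hy, h⟩ := h2 r fun z hz => ((hr z).1 hz).1
  have : ¬ E y r := fun k => by
    obtain ⟨-, s, k1, k2⟩ := (hr y).1 k
    exact k2 (h1 _ _ _ h k1 ▸ k)
  exact this ((hr y).2 ⟨hy, r, h, this⟩)

/-- composition of one-one relations -/
theorem comp_oneOne (a b : M) {f g : M} (hf : OneOne E f) (hg : OneOne E g) :
    ∃ h, OneOne E h ∧ ∀ x z, App E h x z ↔ E x a ∧ E z b ∧ ∃ y, App E f x y ∧ App E g y z := by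
  obtain ⟨h, -, hh⟩ := ex_rel E a b (fun x z => ∃ y, App E f x y ∧ App E g y z)
  refine ⟨h, fun x x' z h1 h2 => ?_, hh⟩
  obtain ⟨-, -, y, k1, k2⟩ := (hh _ _).1 h1
  obtain ⟨-, -, y', k3, k4⟩ := (hh _ _).1 h2
  obtain rfl := hg _ _ _ k2 k4
  exact hf _ _ _ k1 k3

/-- the working form of inaccessibility -/
def IA (E : M → M → Prop) (W : Set M) (l : M) : Prop :=
  IsOrd E l ∧ (∃ y, E y l ∧ Lim E y ∧ ∃ z, E z y) ∧ ∀ x ∈ W, Rk E x l → ∀ f ∈ W,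
    (∀ u, E u x → ∃ y, E y l ∧ App E f u y) → ∃ b, E b l ∧ ∀ u, E u x → ∃ y, E y b ∧ App E f u y

instance RD.ia (i : ℕ) : RD E (Good E) fun W v => IA E W (v i) := by unfold IA; infer_instance

theorem IA.down {l : M} (h : IA E Set.univ l) (W : Set M) : IA E W l :=
  ⟨h.1, h.2.1, fun x _ hx f _ => h.2.2 x trivial hx f trivial⟩

theorem IA.bd {l x : M} (h : IA E Set.univ l) (hx : Rk E x l) (P : M → M → Prop)
    [hP : Df E (fun v => P (v 0) (v 1))] (H : ∀ u, E u x → ∃ y, E y l ∧ P u y) :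
    ∃ b, E b l ∧ ∀ u, E u x → ∃ y, E y b ∧ P u y := by
  obtain ⟨f, -, hf⟩ := ex_rel E x l P
  obtain ⟨b, hb, k⟩ := h.2.2 x trivial hx f trivial fun u hu =>
    let ⟨y, h1, h2⟩ := H u hu; ⟨y, h1, (hf _ _).2 ⟨hu, h1, h2⟩⟩
  exact ⟨b, hb, fun u hu => let ⟨y, h1, h2⟩ := k u hu; ⟨y, h1, ((hf _ _).1 h2).2.2⟩⟩

theorem IA.lim {l : M} (h : IA E Set.univ l) : Lim E l := by
  refine ⟨h.1, fun α hα => ?_⟩
  obtain ⟨y, hy, -, z, hz⟩ := h.2.1
  obtain ⟨x, hx⟩ := ex_upair E z z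
  have : Rk E x l := Rk.intro h.1 hy fun u hu => by
    rcases (hx u).1 hu with rfl | rfl <;> exact (h.1.mem hy).rk hz
  obtain ⟨b, hb, k⟩ := h.bd this (fun _ y => y = α) fun _ _ => ⟨α, hα, rfl⟩
  obtain ⟨y, k1, k2⟩ := k z ((hx z).2 (Or.inl rfl))
  exact ⟨b, hb, k2 ▸ k1⟩

theorem rk_of_sub {l β x : M} (hl : IsOrd E l) (hβ : E β l) (h : ∀ z, E z x → Rk E z β) :
    Rk E x l := Rk.intro hl hβ h

/-- no one-one relation maps an inaccessible into a set of smaller rank -/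
theorem IA.big {l x : M} (h : IA E Set.univ l) (hx : Rk E x l) (P : M → M → Prop)
    [hP : Df E (fun v => P (v 0) (v 1))] (H : ∀ y, E y l → ∃ u, E u x ∧ P u y)
    (hu : ∀ u y y', P u y → P u y' → y = y') : False := by
  have := hP.d2
  obtain ⟨x', hx'⟩ := sep E x (fun u => ∃ y, E y l ∧ P u y)
  obtain ⟨b, hb, k⟩ := h.bd (hx.sub fun u hu => ((hx' u).1 hu).1) P fun u hu => ((hx' u).1 hu).2
  obtain ⟨u, h1, h2⟩ := H b hb
  obtain ⟨y, k1, k2⟩ := k u ((hx' u).2 ⟨h1, b, hb, h2⟩)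
  exact no1 (hu _ _ _ k2 h2 ▸ k1)

theorem IA.small (hC : Choice E) {l x : M} (h : IA E Set.univ l) (hx : Rk E x l) :
    ∃ β, E β l ∧ ∃ f, Func E f x β ∧ OneOne E f := by
  obtain ⟨c, θ, h1, h2, h3, h4, -⟩ := enum hC x
  refine ⟨θ, by_contra fun hn => ?_, c, h2, h3⟩
  refine h.big hx (fun u y => App E c u y) (fun y hy => ?_) h2.fn
  obtain ⟨u, hu⟩ := h4 y ((h.1.le_of_not h1 hn).sub h1 y hy)
  exact ⟨u, (h2.mem hu).1, hu⟩

theorem Lim.pow {l α p : M} (h : Lim E l) (hα : Rk E α l) (hp : ∀ x, E x p → Sub E x α) :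
    Rk E p l := by
  obtain ⟨β, hβ, k⟩ := h.rk hα
  exact Rk.intro h.1 hβ fun x hx => k.sub (hp x hx)

theorem IA.inacc (hC : Choice E) {l : M} (h : IA E Set.univ l) : Inacc E Set.univ l := by
  refine ⟨h.1, (omega_lt h.1).2 h.2.1, fun a ha f _ hf => ?_, fun α hα p _ hp => ?_⟩
  · obtain ⟨b, hb, k⟩ := h.2.2 a trivial (h.1.rk ha) f trivial fun u hu => hf.tot hu
    refine ⟨b, hb, fun x y hxy => ?_⟩
    obtain ⟨y', k1, k2⟩ := k x (hf.mem hxy).1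
    exact hf.fn _ _ _ k2 hxy ▸ k1
  · obtain ⟨β, hβ, f, k⟩ := h.small hC (Lim.pow h.lim (h.1.rk hα) fun x hx => (hp x trivial).1 hx)
    exact ⟨β, hβ, f, trivial, k⟩

theorem IA.card {l : M} (h : IA E Set.univ l) : IsCard E l :=
  ⟨h.1, fun α hα ⟨f, h1, h2, _⟩ => h.big (h.1.rk hα) (fun u y => App E f y u)
    (fun y hy => h1.tot hy) fun u y y' => h2 y y' u⟩

/-- `x` has fewer than `l` elements -/
def Sm (E : M → M → Prop) (l x : M) : Prop :=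
  ∃ γ, E γ l ∧ ∃ f, OneOne E f ∧ ∀ u, E u x → ∃ y, E y γ ∧ App E f u y

theorem Sm.of_inj {l x y g : M} (h : Sm E l y) (hg : OneOne E g)
    (H : ∀ u, E u x → ∃ z, E z y ∧ App E g u z) : Sm E l x := by
  obtain ⟨γ, hγ, f, hf, k⟩ := h
  obtain ⟨c, hc, hc'⟩ := comp_oneOne x γ hg hf
  refine ⟨γ, hγ, c, hc, fun u hu => ?_⟩
  obtain ⟨z, k1, k2⟩ := H u hu
  obtain ⟨t, k3, k4⟩ := k z k1
  exact ⟨t, k3, (hc' _ _).2 ⟨hu, k3, z, k2, k4⟩⟩

theorem Sm.ord {l x : M} (h : E x l) : Sm E l x := by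
  obtain ⟨f, -, hf⟩ := ex_rel E x x (fun a b => a = b)
  exact ⟨x, h, f, fun a b c h1 h2 => ((hf _ _).1 h1).2.2.trans ((hf _ _).1 h2).2.2.symm,
    fun u hu => ⟨u, hu, (hf _ _).2 ⟨hu, hu, rfl⟩⟩⟩

theorem Sm.pow {l x p : M} (hl : Inacc E Set.univ l) (h : Sm E l x)
    (hp : ∀ s, E s p → Sub E s x) : Sm E l p := by
  obtain ⟨γ, hγ, f, hf, k⟩ := h
  obtain ⟨q, hq⟩ := ex_pow E γ
  obtain ⟨β, hβ, g, -, hg, hg'⟩ := hl.2.2.2 γ hγ q trivial fun x _ => hq x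
  obtain ⟨r, -, hr⟩ := ex_rel E p q (fun s t => ∀ η, E η t ↔ E η γ ∧ ∃ u, E u s ∧ App E f u η)
  refine Sm.of_inj (y := q) (g := r) ⟨β, hβ, g, hg', fun u hu => hg.tot hu⟩ ?_ fun s hs => ?_
  · have : ∀ s s' t, App E r s t → App E r s' t → Sub E s s' := fun s s' t h1 h2 u hu => by
      obtain ⟨a1, -, a2⟩ := (hr _ _).1 h1
      obtain ⟨η, b1, b2⟩ := k u (hp s a1 u hu)
      obtain ⟨-, u', b3, b4⟩ := (((hr _ _).1 h2).2.2 η).1 ((a2 η).2 ⟨b1, u, hu, b2⟩)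
      exact hf _ _ _ b4 b2 ▸ b3
    exact fun s s' t h1 h2 => ext' E fun u => ⟨this s s' t h1 h2 u, this s' s t h2 h1 u⟩
  · obtain ⟨t, ht⟩ := sep E γ (fun η => ∃ u, E u s ∧ App E f u η)
    have := (hq t).2 fun η hη => ((ht η).1 hη).1
    exact ⟨t, this, (hr _ _).2 ⟨hs, this, ht⟩⟩

theorem Sm.bd (hC : Choice E) {l x : M} (hl : Inacc E Set.univ l) (h : Sm E l x)
    (P : M → M → Prop) [hP : Df E (fun v => P (v 0) (v 1))] (H : ∀ u, E u x → ∃ y, E y l ∧ P u y) :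
    ∃ b, E b l ∧ ∀ u, E u x → ∃ y, E y b ∧ P u y := by
  have := hP.d2
  obtain ⟨γ, hγ, f, hf, k⟩ := h
  obtain ⟨F, hF, hF'⟩ := acF hC γ l (fun η y => ∀ u, E u x → App E f u η → P u y) fun η hη => by
    by_cases hn : ∃ u, E u x ∧ App E f u η
    · obtain ⟨u, h1, h2⟩ := hn
      obtain ⟨y, h3, h4⟩ := H u h1
      exact ⟨y, h3, fun u' _ h5 => hf _ _ _ h2 h5 ▸ h4⟩
    · exact ⟨γ, hγ, fun u h1 h2 => (hn ⟨u, h1, h2⟩).elim⟩
  obtain ⟨b, hb, hb'⟩ := hl.2.2.1 γ hγ F trivial hF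
  refine ⟨b, hb, fun u hu => ?_⟩
  obtain ⟨η, h1, h2⟩ := k u hu
  obtain ⟨y, -, h3⟩ := hF.tot h1
  exact ⟨y, hb' _ _ h3, (hF' _ _ h3).2.2 u hu h2⟩

theorem Inacc.lim {l : M} (h : Inacc E Set.univ l) : Lim E l := by
  refine ⟨h.1, fun α hα => ?_⟩
  obtain ⟨q, hq⟩ := ex_pow E α
  obtain ⟨β, hβ, g, -, hg, hg'⟩ := h.2.2.2 α hα q trivial fun x _ => hq x
  refine ⟨β, hβ, by_contra fun hn => cantor hg' (a := α) fun s hs => ?_⟩
  obtain ⟨y, h1, h2⟩ := hg.tot ((hq s).2 hs)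
  exact ⟨y, ((h.1.mem hβ).le_of_not (h.1.mem hα) hn).sub (h.1.mem hα) y h1, h2⟩

theorem Inacc.ia (hC : Choice E) {l : M} (h : Inacc E Set.univ l) : IA E Set.univ l := by
  have dS : D1 E (Sm E l) := fun _ _ => by unfold Sm; infer_instance
  have key : ∀ β, IsOrd E β → E β l → ∀ x, (∀ z, E z x → Rk E z β) → Sm E l x := by
    refine ord_ind (fun β => E β l → ∀ x, (∀ z, E z x → Rk E z β) → Sm E l x) ?_
    intro β ho ih hβ x hx
    obtain ⟨b, hb, k⟩ := Sm.bd hC h (Sm.ord hβ) (fun δ γ => ∃ f, OneOne E f ∧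
        ∀ s, (∀ z, E z s → Rk E z δ) → ∃ y, E y γ ∧ App E f s y) fun δ hδ => by
      obtain ⟨v, hv⟩ := ex_V (ho.mem hδ)
      obtain ⟨p, hp⟩ := ex_pow E v
      obtain ⟨γ, hγ, f, h1, h2⟩ := Sm.pow h (ih δ hδ (h.1.tr hβ hδ) v fun z => (hv z).1)
        fun s => (hp s).1
      exact ⟨γ, hγ, f, h1, fun s hs => h2 s ((hp s).2 fun z hz => (hv z).2 (hs z hz))⟩
    obtain ⟨F, -, F1, F2, F3⟩ := ac hC β (fun δ f => OneOne E f ∧
      ∀ s, (∀ z, E z s → Rk E z δ) → ∃ y, E y b ∧ App E f s y)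
    obtain ⟨m, hm, m1, m2⟩ := h.lim.two hβ hb
    have mo := h.1.mem hm
    obtain ⟨p, hp⟩ := ex_pow E m
    obtain ⟨q, hq⟩ := ex_pow E p
    obtain ⟨g, -, hg⟩ := ex_rel E x q
      (fun s t => ∃ δ f y, App E F δ f ∧ App E f s y ∧ IsOPair E t δ y)
    refine Sm.of_inj (Sm.pow h (Sm.pow h (Sm.ord hm) fun s => (hp s).1) fun s => (hq s).1)
      (g := g) (fun s s' t h1 h2 => ?_) fun s hs => ?_
    · obtain ⟨-, -, δ, f, y, a1, a2, a3⟩ := (hg _ _).1 h1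
      obtain ⟨-, -, δ', f', y', b1, b2, b3⟩ := (hg _ _).1 h2
      obtain ⟨rfl, rfl⟩ := a3.inj b3
      obtain rfl := F1 _ _ _ a1 b1
      exact (F2 _ _ a1).2.1 _ _ _ a2 b2
    · obtain ⟨δ, hδ, a1⟩ := (hx s hs).elim
      obtain ⟨f, hf⟩ := F3 δ hδ (by
        obtain ⟨γ, hγ, f, b1, b2⟩ := k δ hδ
        exact ⟨f, b1, fun s hs => let ⟨y, c1, c2⟩ := b2 s hs; ⟨y, (h.1.mem hb).tr hγ c1, c2⟩⟩)
      obtain ⟨y, hy, a2⟩ := (F2 _ _ hf).2.2 s a1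
      obtain ⟨t, ht⟩ := ex_opair E δ y
      have : E t q := by
        obtain ⟨t1, t2, c1, c2, c3⟩ := ht
        refine (hq t).2 fun z hz => (hp z).2 fun u hu => ?_
        rcases (c3 z).1 hz with rfl | rfl
        · rcases (c1 u).1 hu with rfl | rfl <;> exact mo.tr m1 hδ
        · rcases (c2 u).1 hu with rfl | rfl
          exacts [mo.tr m1 hδ, mo.tr m2 hy]
      exact ⟨t, this, (hg _ _).2 ⟨hs, this, δ, f, y, hf, a2, ht⟩⟩
  refine ⟨h.1, (omega_lt h.1).1 h.2.1, fun x _ hx f _ => ?_⟩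
  obtain ⟨β, hβ, k⟩ := hx.elim
  exact Sm.bd hC h (key β (h.1.mem hβ) hβ x k) fun u y => App E f u y

/-- an inaccessible is a limit of limit ordinals -/
theorem IA.lim_below {l a : M} (h : IA E Set.univ l) (ha : E a l) :
    ∃ n, E n l ∧ E a n ∧ Lim E n := by
  let S : M → M → M → Prop := fun f i y =>
    ∀ z, E z y ↔ Le E z a ∨ ∃ i' y', E i' i ∧ App E f i' y' ∧ Le E z y'
  have hr : RecOK E (IsOrd E) E S :=
    { wfOrd E with
      dS := fun _ _ _ _ _ _ => by simp only [S]; infer_instance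
      inv := fun f g x y _ H hS z => by
        rw [hS z]
        exact or_congr Iff.rfl (exists₂_congr fun m y' => and_congr_right fun hm => by rw [H m hm])
      ex := fun f x _ _ => by
        obtain ⟨d, hd⟩ := ex_fld E f
        obtain ⟨d1, hd1⟩ := ex_ins E d a
        obtain ⟨d2, hd2⟩ := ex_sUnion E d1
        obtain ⟨d3, hd3⟩ := ex_union E d1 d2
        obtain ⟨y, hy⟩ := sep E d3 (fun z => Le E z a ∨ ∃ i' y', E i' x ∧ App E f i' y' ∧ Le E z y')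
        refine ⟨y, fun z => (hy z).trans ⟨fun h => h.2, fun h => ⟨?_, h⟩⟩⟩
        have : ∀ t, E t d1 → Le E z t → E z d3 := fun t ht k => (hd3 z).2
          (k.elim (fun k => Or.inr ((hd2 z).2 ⟨t, ht, k⟩)) fun k => Or.inl (k ▸ ht))
        rcases h with h | ⟨m, y', -, h1, h2⟩
        · exact this a ((hd1 a).2 (Or.inr rfl)) h
        · exact this y' ((hd1 y').2 (Or.inl (hd _ _ h1).2)) h2
      uniq := fun f x y y' _ _ h1 h2 => ext' E fun z => (h1 z).trans (h2 z).symm }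
  have dH := hr.dRec
  set H := Rec E (IsOrd E) E S
  have key : ∀ i y, H i y → ∀ z, E z y ↔ Le E z a ∨ ∃ i' y', E i' i ∧ H i' y' ∧ Le E z y' :=
    fun i y hy z => by
      obtain ⟨f, hf, hS⟩ := hr.elim hy
      rw [hS z]
      exact or_congr Iff.rfl (exists₂_congr fun m y' => and_congr_right fun hm => by rw [hf m hm])
  have lt : ∀ i, IsOrd E i → E i l → ∀ y, H i y → E y l := by
    refine ord_ind (fun i => E i l → ∀ y, H i y → E y l) fun i ho ih hi y hy => ?_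
    obtain ⟨b, hb, k⟩ := h.bd (h.1.rk hi) H fun u hu =>
      let ⟨y', hy'⟩ := hr.total (ho.mem hu); ⟨y', ih u hu (h.1.tr hi hu) y' hy', hy'⟩
    obtain ⟨m, hm, m1, m2⟩ := h.lim.two ha hb
    have mo := h.1.mem hm
    have hs : Sub E y m := fun z hz => by
      rcases (key i y hy z).1 hz with k1 | ⟨i', y', k1, k2, k3⟩
      · exact k1.lt mo m1
      · obtain ⟨y'', k4, k5⟩ := k i' k1
        exact k3.lt mo (mo.tr m2 (hr.fn k5 k2 ▸ k4))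
    refine ((ord_of_trans (fun z u hz hu => (key i y hy u).2 ?_) fun z hz =>
      mo.mem (hs z hz)).le_of_sub mo hs).lt h.1 hm
    rcases (key i y hy z).1 hz with k1 | ⟨i', y', k1, k2, k3⟩
    · exact Or.inl (Or.inl (k1.sub (h.1.mem ha) u hu))
    · exact Or.inr ⟨i', y', k1, k2, Or.inl
        (k3.sub (h.1.mem (ih i' k1 (h.1.tr hi k1) y' k2)) u hu)⟩
  obtain ⟨y, hy, yl, z, hz⟩ := h.2.1
  obtain ⟨n, hn⟩ := hr.total yl.1
  have hnl := lt y yl.1 hy n hn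
  refine ⟨n, hnl, (key _ _ hn a).2 (Or.inl (Or.inr rfl)), h.1.mem hnl, fun u hu => ?_⟩
  have : ∃ i, E i y ∧ (Le E u a ∨ ∃ i' y', E i' i ∧ H i' y' ∧ Le E u y') := by
    rcases (key _ _ hn u).1 hu with k | ⟨i', y', k1, k2⟩
    · exact ⟨z, hz, Or.inl k⟩
    · obtain ⟨i, a1, a2⟩ := yl.2 i' k1
      exact ⟨i, a1, Or.inr ⟨i', y', a2, k2⟩⟩
  obtain ⟨i, hi, k⟩ := this
  obtain ⟨t, ht⟩ := hr.total (yl.1.mem hi)
  exact ⟨t, (key _ _ hn t).2 (Or.inr ⟨i, t, hi, ht, Or.inr rfl⟩), (key _ _ ht u).2 k⟩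

/-- a bijection `V_κ → κ` that restricts to bijections `V_l → l` for inaccessible `l` -/
theorem coding (hC : Choice E) {κ K : M} (h : IA E Set.univ κ) (hK : ∀ x, E x K ↔ Rk E x κ) :
    ∃ c, Func E c K κ ∧ OneOne E c ∧ ∀ l, E l κ → IA E Set.univ l →
      (∀ x y, App E c x y → (Rk E x l ↔ E y l)) ∧ ∀ y, E y l → ∃ x, App E c x y := by
  obtain ⟨c, θ, h1, h2, h3, h4, h5⟩ := enum hC K
  have key : ∀ l, Le E l κ → IA E Set.univ l →
      (∀ x y, App E c x y → (Rk E x l ↔ E y l)) ∧ ∀ y, E y l → ∃ x, App E c x y := by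
    intro l hl hi
    have small : ∀ y, E y l → (∀ u t, E u l → App E c u t → E t y) → False := fun y hy H =>
      hi.big (hi.1.rk hy) (fun t u => App E c u t) (fun u hu => by
        obtain ⟨t, -, k⟩ := h2.tot ((hK u).2 ((hi.1.rk hu).mono h.1 hl))
        exact ⟨t, H u t hu k, k⟩) fun t u u' => h3 u u' t
    refine ⟨fun x y hxy => ⟨fun hx => by_contra fun hn => ?_, fun hy => by_contra fun hn =>
      small y hy fun u t hu k => h5 _ _ _ _ k hxy ⟨l, hi.1.rk hu, hn⟩⟩, fun y hy => h4 y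
      (by_contra fun hn => small y hy fun u t hu k =>
        (h1.le_of_not (hi.1.mem hy) hn).sub (hi.1.mem hy) t (h2.mem k).2)⟩
    obtain ⟨β, hβ, k⟩ := hi.lim.rk hx
    obtain ⟨v, hv⟩ := ex_V k.ord
    have yo := h1.mem (h2.mem hxy).2
    refine hi.big (Rk.intro hi.1 hβ fun z => (hv z).1) (fun u t => App E c u t) (fun t ht => ?_)
      h2.fn
    have hty := (hi.1.le_of_not yo hn).sub yo t ht
    obtain ⟨u, hu⟩ := h4 t (h1.tr (h2.mem hxy).2 hty)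
    exact ⟨u, (hv u).2 (by_contra fun k' => no2 hty (h5 _ _ _ _ hxy hu ⟨β, k, k'⟩)), hu⟩
  refine ⟨c, ⟨⟨fun p hp => ?_, h2.fn⟩, h2.2⟩, h3, fun l hl => key l (Or.inl hl)⟩
  obtain ⟨x, y, a1, a2, a3⟩ := h2.1.1 p hp
  exact ⟨x, y, a1, ((key κ (Or.inr rfl) h).1 x y ⟨p, a3, hp⟩).1 ((hK x).1 a1), a3⟩

end Pool.Agent.Lib.MP_75a307_lc
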