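import Pool.Agent.Lib.MP_75a307_lc.Defs
import Pool.Agent.Lib.MP_1d770b_lc.Rec

/-! Definable terms, pairs, application, choice. -/

set_option synthInstance.maxSize 100000
set_option linter.unusedVariables false
set_option linter.unusedSectionVars false

namespace Pool.Agent.Lib.MP_75a307_lc

open Pool.Agent.Lib.MP_1d770b_lc

universe u
variable {M : Type u} {E : M → M → Prop}

/-- definable terms -/
class DT (E : M → M → Prop) (t : (ℕ → M) → M) : Prop where
  out : Df E (fun w => w 0 = t (tl w))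

instance (priority := 100) DT.ofT (t : (ℕ → M) → M) [IsT t] : DT E t := ⟨inferInstance⟩

theorem DT.tl (t : (ℕ → M) → M) [h : DT E t] : DT E (fun v => t (tl v)) :=
  ⟨h.out.subst (fun i w => match i with | 0 => w 0 | i + 1 => w (i + 2))
    (fun i => by cases i <;> infer_instance)⟩

theorem dt1 {S : M → Prop} (h : D1 E S) (t : (ℕ → M) → M) [ht : DT E t] :
    Df E fun v => S (t v) := by
  have := ht.out
  exact Df.congr (P := fun v => ∃ a, a = t v ∧ S a) inferInstance fun v => by simp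

theorem dt2 {S : M → M → Prop} (h : D2 E S) (s t : (ℕ → M) → M) [hs : DT E s] [ht : DT E t] :
    Df E fun v => S (s v) (t v) := by
  have := hs.out
  have := (DT.tl (E := E) t).out
  exact Df.congr (P := fun v => ∃ a, a = s v ∧ ∃ b, b = t v ∧ S a b) inferInstance fun v => by simp

theorem dt3 {S : M → M → M → Prop} (h : D3 E S) (r s t : (ℕ → M) → M) [hr : DT E r]
    [hs : DT E s] [ht : DT E t] : Df E fun v => S (r v) (s v) (t v) := by
  have := hr.out
  have := (DT.tl (E := E) s).out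
  have := (@DT.tl _ E _ (DT.tl (E := E) t)).out
  exact Df.congr (P := fun v => ∃ a, a = r v ∧ ∃ b, b = s v ∧ ∃ c, c = t v ∧ S a b c)
    inferInstance fun v => by simp

abbrev D4 (E : M → M → Prop) (S : M → M → M → M → Prop) : Prop :=
  ∀ (q r s t : (ℕ → M) → M) [IsT q] [IsT r] [IsT s] [IsT t], Df E (fun v => S (q v) (r v) (s v) (t v))

theorem dt4 {S : M → M → M → M → Prop} (h : D4 E S) (q r s t : (ℕ → M) → M) [hq : DT E q]
    [hr : DT E r] [hs : DT E s] [ht : DT E t] : Df E fun v => S (q v) (r v) (s v) (t v) := by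
  have := hq.out
  have := (DT.tl (E := E) r).out
  have h3 := DT.tl (E := E) s
  have := (DT.tl (E := E) fun v => s (tl v)).out
  have h4 := DT.tl (E := E) t
  have h5 := DT.tl (E := E) fun v => t (tl v)
  have := (DT.tl (E := E) fun v => t (tl (tl v))).out
  exact Df.congr (P := fun v => ∃ a, a = q v ∧ ∃ b, b = r v ∧ ∃ c, c = s v ∧ ∃ d, d = t v ∧
    S a b c d) inferInstance fun v => by simp

/-- definable unary and binary operations -/
abbrev F1 (E : M → M → Prop) (F : M → M) : Prop :=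
  ∀ (t : (ℕ → M) → M) [DT E t], DT E (fun v => F (t v))
abbrev F2 (E : M → M → Prop) (F : M → M → M) : Prop :=
  ∀ (s t : (ℕ → M) → M) [DT E s] [DT E t], DT E (fun v => F (s v) (t v))

theorem f1 {F : M → M} (h : D2 E fun x y => F x = y) : F1 E F := fun t _ => by
  have := DT.tl (E := E) t
  exact ⟨(dt2 h (fun w => t (tl w)) (fun w => w 0)).congr fun _ => eq_comm⟩

theorem f2 {F : M → M → M} (h : D3 E fun x y z => F x y = z) : F2 E F := fun s t _ _ => by
  have := DT.tl (E := E) t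
  have := DT.tl (E := E) s
  exact ⟨(dt3 h (fun w => s (tl w)) (fun w => t (tl w)) (fun w => w 0)).congr fun _ => eq_comm⟩

section
variable (a b c : (ℕ → M) → M) [IsT a] [IsT b] [IsT c]
instance : Df E fun v => Incl E (a v) (b v) := by unfold Incl; infer_instance
instance : Df E fun v => Func E (a v) (b v) (c v) := by unfold Func; infer_instance
instance : Df E fun v => OneOne E (a v) := by unfold OneOne; infer_instance
instance : Df E fun v => Eqp E (a v) (b v) := by unfold Eqp; infer_instance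
instance : Df E fun v => a v ∈ (Set.univ : Set M) :=
  Df.congr (P := fun _ => True) inferInstance fun _ => Iff.rfl
end

section
variable (a b c : (ℕ → M) → M) [DT E a] [DT E b] [DT E c]
instance (priority := 900) : Df E fun v => E (a v) (b v) := dt2 (fun _ _ _ _ => inferInstance) a b
instance (priority := 900) : Df E fun v => a v = b v :=
  dt2 (S := Eq) (fun _ _ _ _ => inferInstance) a b
instance (priority := 900) : Df E fun v => a v ≠ b v :=
  inferInstanceAs (Df E fun v => ¬ a v = b v)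
instance (priority := 900) : Df E fun v => App E (a v) (b v) (c v) :=
  dt3 (fun _ _ _ _ _ _ => inferInstance) a b c
instance (priority := 900) : Df E fun v => IsOPair E (a v) (b v) (c v) :=
  dt3 (fun _ _ _ _ _ _ => inferInstance) a b c
instance (priority := 900) : Df E fun v => Rk E (a v) (b v) :=
  dt2 (fun _ _ _ _ => inferInstance) a b
instance (priority := 900) : Df E fun v => Le E (a v) (b v) :=
  dt2 (fun _ _ _ _ => inferInstance) a b
end

theorem inV_iff {x α : M} : InV E x α ↔ Rk E x α :=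
  ⟨fun ⟨f, v, h1, h2, h3⟩ => ⟨v, ⟨f, h1, h2⟩, h3⟩, fun ⟨v, ⟨f, h1, h2⟩, h3⟩ => ⟨f, v, h1, h2, h3⟩⟩

theorem sat_dt (φ : Fm) : ∀ (t : ℕ → (ℕ → M) → M), (∀ i, DT E (t i)) →
    Df E fun v => Sat E φ fun i => t i v := by
  induction φ with
  | mem i j => intro t ht; exact inferInstanceAs (Df E fun v => E (t i v) (t j v))
  | eq i j => intro t ht; exact inferInstanceAs (Df E fun v => t i v = t j v)
  | neg φ ih =>
    intro t ht; have := ih t ht; exact inferInstanceAs (Df E fun v => ¬ Sat E φ fun i => t i v)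
  | and φ ψ ih1 ih2 =>
    intro t ht; have := ih1 t ht; have := ih2 t ht
    exact inferInstanceAs (Df E fun v => (Sat E φ fun i => t i v) ∧ Sat E ψ fun i => t i v)
  | ex φ ih =>
    intro t ht
    have h := ih (fun i => match i with | 0 => fun w => w 0 | i + 1 => fun w => t i (tl w))
      (fun i => by cases i; exacts [inferInstance, DT.tl _])
    refine @Df.ex _ _ (fun v a => Sat E φ (scons a fun i => t i v)) (h.congr fun w => ?_)
    refine iff_of_eq (congrArg _ ?_)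
    funext i; cases i <;> rfl

variable [hZ : ZF E]

variable (E) in
noncomputable def pr (a b : M) : M := (ex_opair E a b).choose

theorem pr_spec (a b : M) : IsOPair E (pr E a b) a b := (ex_opair E a b).choose_spec

theorem pr_eq {p a b : M} : IsOPair E p a b ↔ p = pr E a b :=
  ⟨fun h => h.uniq (pr_spec a b), fun h => h ▸ pr_spec a b⟩

theorem pr_inj {a b c d : M} (h : pr E a b = pr E c d) : a = c ∧ b = d :=
  (pr_spec a b).inj (h ▸ pr_spec c d)

theorem app_iff {f a b : M} : App E f a b ↔ E (pr E a b) f :=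
  ⟨fun h => h.mem (pr_spec a b), fun h => ⟨_, pr_spec a b, h⟩⟩

instance (s t : (ℕ → M) → M) [DT E s] [DT E t] : DT E fun v => pr E (s v) (t v) :=
  f2 (fun a b c _ _ _ => Df.congr (P := fun v => IsOPair E (c v) (a v) (b v)) inferInstance
    fun _ => pr_eq.trans eq_comm) s t

variable (E) in
theorem ex_ap (f x : M) : ∃ y, ∀ z, E z y ↔ ∃ y', App E f x y' ∧ E z y' := by
  obtain ⟨d, hd⟩ := ex_fld E f
  obtain ⟨u, hu⟩ := ex_sUnion E d
  obtain ⟨y, hy⟩ := sep E u (fun z => ∃ y', App E f x y' ∧ E z y')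
  exact ⟨y, fun z => (hy z).trans ⟨fun h => h.2, fun ⟨y', h1, h2⟩ =>
    ⟨(hu z).2 ⟨y', (hd x y' h1).2, h2⟩, y', h1, h2⟩⟩⟩

variable (E) in
noncomputable def ap (f x : M) : M := (ex_ap E f x).choose

theorem ap_spec (f x z : M) : E z (ap E f x) ↔ ∃ y', App E f x y' ∧ E z y' :=
  (ex_ap E f x).choose_spec z

theorem ap_eq {f x y : M} (hf : Fn E f) (h : App E f x y) : ap E f x = y :=
  ext' E fun z => (ap_spec f x z).trans
    ⟨fun ⟨y', h1, h2⟩ => hf _ _ _ h1 h ▸ h2, fun h2 => ⟨y, h, h2⟩⟩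

theorem app_ap {f x : M} (hf : Fn E f) (h : ∃ y, App E f x y) : App E f x (ap E f x) := by
  obtain ⟨y, h⟩ := h
  rwa [ap_eq hf h]

instance (s t : (ℕ → M) → M) [DT E s] [DT E t] : DT E fun v => ap E (s v) (t v) :=
  f2 (fun a b c _ _ _ => Df.congr
    (P := fun v => ∀ z, E z (c v) ↔ ∃ y', App E (a v) (b v) y' ∧ E z y') inferInstance
    fun v => ⟨fun h => ext' E fun z => (ap_spec _ _ z).trans (h z).symm,
      fun h z => h ▸ ap_spec _ _ z⟩) s t

theorem ac (hC : Choice E) (a : M) (P : M → M → Prop) [h : Df E (fun v => P (v 0) (v 1))] :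
    ∃ f, (∀ p, E p f → ∃ x y, IsOPair E p x y ∧ E x a ∧ P x y) ∧ Fn E f ∧
      (∀ x y, App E f x y → E x a ∧ P x y) ∧ ∀ x, E x a → (∃ y, P x y) → ∃ y, App E f x y := by
  have h2 := h.d2
  obtain ⟨b, hb⟩ := coll E a P
  obtain ⟨r, hr, hr'⟩ := ex_rel E a b P
  obtain ⟨pw, hpw⟩ := ex_pow E r
  obtain ⟨F, hF⟩ := sep E pw (fun s => ∃ x, (∃ p, E p s) ∧
    ∀ p, E p s ↔ E p r ∧ ∃ y, IsOPair E p x y)
  obtain ⟨c, hc⟩ := hC F (fun s hs => let ⟨_, _, h, _⟩ := (hF s).1 hs; h) (fun s s' p h1 h2 h3 h4 => by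
    obtain ⟨-, x, -, k1⟩ := (hF s).1 h1
    obtain ⟨-, x', -, k2⟩ := (hF s').1 h2
    obtain ⟨y, hy⟩ := ((k1 p).1 h3).2
    obtain ⟨y', hy'⟩ := ((k2 p).1 h4).2
    obtain ⟨rfl, -⟩ := hy.inj hy'
    exact ext' E fun z => (k1 z).trans (k2 z).symm)
  obtain ⟨f, hf⟩ := sep E r (fun p => E p c)
  have key : ∀ x y, App E r x y → ∃! p, (E p r ∧ ∃ y, IsOPair E p x y) ∧ E p c := by
    rintro x y ⟨p, hp, hpr⟩
    obtain ⟨s, hs⟩ := sep E r (fun p => ∃ y, IsOPair E p x y)
    have := hc s ((hF s).2 ⟨(hpw s).2 fun z hz => ((hs z).1 hz).1, x,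
      ⟨p, (hs p).2 ⟨hpr, y, hp⟩⟩, hs⟩)
    simpa only [hs] using this
  have hfr : Sub E f r := fun p hp => ((hf p).1 hp).1
  refine ⟨f, fun p hp => ?_, fun x y y' h1 h2 => ?_, fun x y h => ?_, fun x hx hy => ?_⟩
  · obtain ⟨x, y, h1, -, h2, h3⟩ := (hr p).1 (hfr p hp)
    exact ⟨x, y, h2, h1, h3⟩
  · have hu := key x y (h1.mono hfr)
    obtain ⟨p, h3, h4⟩ := h1
    obtain ⟨p', h5, h6⟩ := h2
    obtain rfl := hu.unique ⟨⟨hfr p h4, y, h3⟩, ((hf p).1 h4).2⟩ ⟨⟨hfr p' h6, y', h5⟩, ((hf p').1 h6).2⟩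
    exact (h3.inj h5).2
  · obtain ⟨h1, -, h2⟩ := (hr' x y).1 (h.mono hfr)
    exact ⟨h1, h2⟩
  · obtain ⟨y, h1, h2⟩ := hb x hx hy
    obtain ⟨p, ⟨⟨h3, y', h4⟩, h5⟩, -⟩ := key x y ((hr' x y).2 ⟨hx, h1, h2⟩)
    exact ⟨y', p, h4, (hf p).2 ⟨h3, h5⟩⟩

/-- choice of a function from `a` to `b` -/
theorem acF (hC : Choice E) (a b : M) (P : M → M → Prop) [h : Df E (fun v => P (v 0) (v 1))]
    (H : ∀ x, E x a → ∃ y, E y b ∧ P x y) :
    ∃ f, Func E f a b ∧ ∀ x y, App E f x y → E x a ∧ E y b ∧ P x y := by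
  have h2 := h.d2
  obtain ⟨f, h1, h2, h3, h4⟩ := ac hC a (fun x y => E y b ∧ P x y)
  refine ⟨f, ⟨⟨fun p hp => ?_, h2⟩, fun x hx => h4 x hx (H x hx)⟩, h3⟩
  obtain ⟨x, y, k1, k2, k3, -⟩ := h1 p hp
  exact ⟨x, y, k2, k3, k1⟩

theorem Func.fn {f a b : M} (h : Func E f a b) : Fn E f := h.1.2

theorem Func.mem {f a b x y : M} (h : Func E f a b) (hx : App E f x y) : E x a ∧ E y b := by
  obtain ⟨p, h1, h2⟩ := hx
  obtain ⟨x', y', k1, k2, k3⟩ := h.1.1 p h2
  obtain ⟨rfl, rfl⟩ := h1.inj k3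
  exact ⟨k1, k2⟩

theorem Func.tot {f a b x : M} (h : Func E f a b) (hx : E x a) : ∃ y, E y b ∧ App E f x y :=
  let ⟨y, hy⟩ := h.2 x hx; ⟨y, (h.mem hy).2, hy⟩

/-- a definable relation between two sets that is a function -/
theorem ex_func (a b : M) (P : M → M → Prop) [h : Df E (fun v => P (v 0) (v 1))]
    (H : ∀ x, E x a → ∃ y, E y b ∧ P x y)
    (hu : ∀ x y y', E x a → E y b → E y' b → P x y → P x y' → y = y') :
    ∃ f, Func E f a b ∧ ∀ x y, App E f x y ↔ E x a ∧ E y b ∧ P x y := by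
  obtain ⟨f, h1, h2⟩ := ex_rel E a b P
  refine ⟨f, ⟨⟨fun p hp => ?_, fun x y y' k1 k2 => ?_⟩, fun x hx => ?_⟩, h2⟩
  · obtain ⟨x, y, k1, k2, k3, -⟩ := (h1 p).1 hp
    exact ⟨x, y, k1, k2, k3⟩
  · obtain ⟨a1, a2, a3⟩ := (h2 _ _).1 k1
    obtain ⟨-, a4, a5⟩ := (h2 _ _).1 k2
    exact hu x y y' a1 a2 a4 a3 a5
  · obtain ⟨y, hy⟩ := H x hx
    exact ⟨y, (h2 _ _).2 ⟨hx, hy⟩⟩

end Pool.Agent.Lib.MP_75a307_lc
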