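import Pool.Agent.Lib.MP_1d770b_lc.Defs

/-!
Strong cardinals, extender ultrapowers and bad witnesses inside a model `(M, E)` of ZFC.
Classes are subsets of `M`; elementary embeddings are definable with parameters.
-/

namespace Pool.Agent.Lib.MP_75a307_lc

open Pool.Agent.Lib.MP_1d770b_lc

universe u

variable {M : Type u} (E : M → M → Prop)

/-- `a ⊆ b`. -/
def Incl (a b : M) : Prop := ∀ x, E x a → E x b

/-- `f` is a function from `a` to `b`. -/
def Func (f a b : M) : Prop := PFun E f a b ∧ ∀ x, E x a → ∃ y, App E f x y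

/-- `f` is one-one. -/
def OneOne (f : M) : Prop := ∀ x x' y, App E f x y → App E f x' y → x = x'

/-- `|a| = |b|`. -/
def Eqp (a b : M) : Prop :=
  ∃ f, Func E f a b ∧ OneOne E f ∧ ∀ y, E y b → ∃ x, App E f x y

/-- `k` is a cardinal (an initial ordinal). -/
def IsCard (k : M) : Prop := IsOrd E k ∧ ∀ α, E α k → ¬ Eqp E k α

/-- `x ∈ V_α`: `f` is an initial part of `β ↦ V_β = ⋃_{γ < β} P(V_γ)`. -/
def InV (x α : M) : Prop :=
  ∃ f v, (∀ β y, App E f β y → IsOrd E β ∧ (∀ γ, E γ β → ∃ y', App E f γ y') ∧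
    ∀ z, E z y ↔ ∃ γ y', E γ β ∧ App E f γ y' ∧ Incl E z y') ∧ App E f α v ∧ E x v

/-- `V_α ⊆ W`. -/
def VSub (W : Set M) (α : M) : Prop := ∀ x, InV E x α → x ∈ W

/-- `m` is regular in the class `W`: each function in `W` from a smaller ordinal to `m` is
bounded in `m`. -/
def Reg (W : Set M) (m : M) : Prop :=
  ∀ a, E a m → ∀ f ∈ W, Func E f a m → ∃ b, E b m ∧ ∀ x y, App E f x y → E y b

/-- `l` is inaccessible in the class `W`: uncountable, regular, strong limit. -/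
def Inacc (W : Set M) (l : M) : Prop :=
  IsOrd E l ∧ (∃ w, IsOmega E w ∧ E w l) ∧ Reg E W l ∧
    ∀ α, E α l → ∀ p ∈ W, (∀ x ∈ W, E x p ↔ Incl E x α) →
      ∃ β, E β l ∧ ∃ f ∈ W, Func E f p β ∧ OneOne E f

/-- `m` is a singular cardinal. -/
def Sing (m : M) : Prop := IsCard E m ∧ (∃ w, IsOmega E w ∧ Incl E w m) ∧ ¬ Reg E Set.univ m

/-- `s = α*` in the class `W`: the least inaccessible of `W` above `α`. -/
def Star (W : Set M) (α s : M) : Prop :=
  E α s ∧ Inacc E W s ∧ ∀ l, E l s → E α l → ¬ Inacc E W l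

/-- `j : V → W` is a definable elementary embedding into a definable transitive class, with
critical point `κ`. -/
structure ElEmb (j : M → M) (W : Set M) (κ : M) : Prop where
  defj : Definable E fun x y => j x = y
  defW : Definable E fun x _ => x ∈ W
  trans : ∀ x ∈ W, ∀ y, E y x → y ∈ W
  maps : ∀ x, j x ∈ W
  elem : ∀ φ v, Sat E φ v ↔ Sat (Res E W) φ fun n => ⟨j (v n), maps _⟩
  ord : IsOrd E κ
  fix : ∀ α, E α κ → j α = α
  moves : j κ ≠ κ

/-- `κ` is `μ`-strong. -/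
def Strong (κ μ : M) : Prop := ∃ j W, ElEmb E j W κ ∧ VSub E W μ

/-- `j : V → W` is the ultrapower map of a short `(κ, μ)`-extender with critical point `κ`:
`μ ≤ j κ` and each element of `W` is `j(f)(a)` for a finite `a ⊆ μ` and a function `f` with
domain `[κ]^{|a|}`. -/
def ExtUlt (j : M → M) (W : Set M) (κ μ : M) : Prop :=
  ElEmb E j W κ ∧ Incl E μ (j κ) ∧ ∀ x ∈ W, ∃ a d b f, Incl E a μ ∧
    (∃ w n, IsOmega E w ∧ E n w ∧ Eqp E a n) ∧ (∀ s, E s d ↔ Incl E s κ ∧ Eqp E s a) ∧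
    Func E f d b ∧ App E (j f) a x

/-- There is a bad witness for `κ` is `μ`-strong. -/
def Bad (κ μ : M) : Prop :=
  IsCard E κ ∧ E κ μ ∧ Sing E μ ∧ (∃ v, (∀ x, E x v ↔ InV E x μ) ∧ Eqp E v μ) ∧
    ∃ j W, ExtUlt E j W κ μ ∧ VSub E W μ ∧ Reg E W μ

/-- `g : κ → κ` and `g α < α*` for all `α < κ`. -/
def Below (g κ : M) : Prop :=
  Func E g κ κ ∧ ∀ α y, App E g α y → ∀ l, E α l → Inacc E Set.univ l → E y l

/-- `V_{j(g)(κ)} ⊆ W`. -/
def Reach (j : M → M) (W : Set M) (κ g : M) : Prop := ∃ y, App E (j g) κ y ∧ VSub E W y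

/-- Some `j : V → W` with critical point `κ` has `V_ν ⊆ W` for `ν = (κ*)^W`. -/
def StarStrong (κ : M) : Prop := ∃ j W, ElEmb E j W κ ∧ ∃ ν, Star E W κ ν ∧ VSub E W ν

/-- One `j : V → W` with critical point `κ` has `V_{j(g)(κ)} ⊆ W` for all `g < *`. -/
def StarSuper (κ : M) : Prop := ∃ j W, ElEmb E j W κ ∧ ∀ g, Below E g κ → Reach E j W κ g

/-- For each `g < *` some `j : V → W` with critical point `κ` has `V_{j(g)(κ)} ⊆ W`. -/
def StarShelah (κ : M) : Prop := ∀ g, Below E g κ → ∃ j W, ElEmb E j W κ ∧ Reach E j W κ g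

/-- `U` is a normal measure on `κ > ω`. -/
structure Normal (κ U : M) : Prop where
  unc : IsOrd E κ ∧ ∃ w, IsOmega E w ∧ E w κ
  sub : ∀ X, E X U → Incl E X κ
  top : E κ U
  up : ∀ X Y, E X U → Incl E X Y → Incl E Y κ → E Y U
  ultra : ∀ X Y, (∀ α, E α κ ↔ E α X ∨ E α Y) → E X U ∨ E Y U
  free : ∀ X α, E X U → ∃ β, E β X ∧ β ≠ α
  complete : ∀ γ F, E γ κ → Func E F γ U → ∃ Y, E Y U ∧ ∀ β X, App E F β X → Incl E Y X
  normal : ∀ X f, E X U → (∀ α, E α X → ∃ β, E β α ∧ App E f α β) →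
    ∃ β Y, E Y U ∧ ∀ α, E α Y → App E f α β

/-- Some normal measure on `κ` concentrates on `P`. -/
def Conc (κ : M) (P : M → Prop) : Prop := ∃ U X, Normal E κ U ∧ E X U ∧ ∀ α, E α X → P α

end Pool.Agent.Lib.MP_75a307_lc
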