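import Pool.Agent.Lib.MP_75a307_lc.Los

/-! The extender derived from an elementary embedding. -/

set_option synthInstance.maxSize 100000
set_option linter.unusedVariables false
set_option linter.unusedSectionVars false

namespace Pool.Agent.Lib.MP_75a307_lc

open Pool.Agent.Lib.MP_1d770b_lc

universe u
variable {M : Type u} {E : M → M → Prop} [hZ : ZF E]

theorem El.derived {j : M → M} {W : Set M} (h : El E j W) {K N : M}
    (hK : ∀ a, E a K → E a N ∧ j a = a) (hN : ∀ a, E a N → a ∈ W ∧ E a (j K))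
    (tN : ∀ a, E a N → ∀ b, E b a → E b N) (pN : ∀ a b, E a N → E b N → E (pr E a b) N) :
    ∃ U, Ext E Set.univ K N U ∧
      (∀ R a b, E a N → E b N → App E (j R) a b → A2 E U a b fun s t => App E R s t) ∧
      ∀ Y, E Y U → ∀ σ, E σ Y → ∀ p, E p σ → ∃ a s, IsOPair E p a s ∧ E a N ∧ E s K := by
  have dj := h.fj
  obtain ⟨D, hD, -⟩ := ex_rel E N K fun _ _ => True
  obtain ⟨S, hS⟩ := ex_pow E D
  replace hS : ∀ σ, E σ S ↔ ∀ p, E p σ → ∃ a s, IsOPair E p a s ∧ E a N ∧ E s K := fun σ =>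
    (hS σ).trans (forall₂_congr fun p _ => (hD p).trans
      ⟨fun ⟨a, s, k1, k2, k3, _⟩ => ⟨a, s, k3, k1, k2⟩,
        fun ⟨a, s, k1, k2, k3⟩ => ⟨a, s, k2, k3, k1, trivial⟩⟩)
  obtain ⟨T, hT⟩ := ex_pow E S
  obtain ⟨U, hU⟩ := sep E T fun Y => (∀ σ, E σ Y → Fn E σ) ∧
    (∀ σ, E σ Y → ∀ τ, E τ S → Fn E τ → Sub E σ τ → E τ Y) ∧
    ∃ r, E r (j Y) ∧ ∀ p, E p r → ∃ a, E a N ∧ IsOPair E p (j a) a
  have g1 : ∀ r, (∀ p, E p r → ∃ a, E a N ∧ IsOPair E p (j a) a) → ∀ x y, App E r x y → x = j y :=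
    fun r hr x y ⟨p, k1, k2⟩ => by
      obtain ⟨a, -, k3⟩ := hr p k2
      obtain ⟨rfl, rfl⟩ := k1.inj k3
      rfl
  have g2 : ∀ r, (∀ p, E p r → ∃ a, E a N ∧ IsOPair E p (j a) a) → Fn E r :=
    fun r hr x y y' k1 k2 => h.inj.1 ((g1 r hr _ _ k1).symm.trans (g1 r hr _ _ k2))
  have g3 : ∀ r ∈ W, (∀ p, E p r → ∃ a, E a N ∧ IsOPair E p (j a) a) → E r (j S) :=
    fun r hW hr => (h.tr3 (fun W S N K => ∀ σ ∈ W,
      (∀ p, E p σ → ∃ a s, IsOPair E p a s ∧ E a N ∧ E s K) → E σ S) S N K).1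
      (fun σ _ => (hS σ).2) r hW fun p hp =>
        let ⟨a, k1, k2⟩ := hr p hp; ⟨_, _, k2, h.mem_iff.2 k1, (hN a k1).2⟩
  have inK : ∀ σ a s, E σ S → App E σ a s → E s K := fun σ a s k ⟨p, k1, k2⟩ => by
    obtain ⟨a', s', k3, -, k4⟩ := (hS σ).1 k p k2
    exact (k1.inj k3).2 ▸ k4
  have key : ∀ (Q : Set M → M → M → M → M → M → Prop),
      (∀ i j k l m, RD E (Good E) fun W v => Q W (v i) (v j) (v k) (v l) (v m)) →
      ∀ a b c p q, E a N → E b N → E c N → Q W a b c (j p) (j q) → AE E U fun σ =>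
        ∃ s, App E σ a s ∧ ∃ t, App E σ b t ∧ ∃ u, App E σ c u ∧ E s K ∧ Q Set.univ s t u p q := by
    intro Q hQ a b c p q ha hb hc k
    have hd := RD.df (E := E) (G := Good E) (P := fun W v => Fn E (v 0) ∧ ∃ s, App E (v 0) (v 1) s ∧
      ∃ t, App E (v 0) (v 2) t ∧ ∃ u, App E (v 0) (v 3) u ∧ Q W s t u (v 4) (v 5))
      inferInstance good_univ
    have hd' : Df E fun v => Fn E (v 0) ∧ ∃ s, App E (v 0) a s ∧ ∃ t, App E (v 0) b t ∧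
        ∃ u, App E (v 0) c u ∧ Q Set.univ s t u p q :=
      hd.subst (fun i => match i with
        | 0 => fun v => v 0 | 1 => fun _ => a | 2 => fun _ => b | 3 => fun _ => c | 4 => fun _ => p
        | _ + 5 => fun _ => q) fun i => match i with
        | 0 => inferInstance | 1 => inferInstance | 2 => inferInstance | 3 => inferInstance
        | 4 => inferInstance | _ + 5 => inferInstance
    obtain ⟨Y, hY⟩ := sep E S fun σ => Fn E σ ∧ ∃ s, App E σ a s ∧ ∃ t, App E σ b t ∧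
      ∃ u, App E σ c u ∧ Q Set.univ s t u p q
    obtain ⟨r1, e1⟩ := ex_upair E (pr E (j a) a) (pr E (j b) b)
    obtain ⟨r2, e2⟩ := ex_upair E (pr E (j c) c) (pr E (j c) c)
    obtain ⟨r, e3⟩ := ex_union E r1 r2
    have w : ∀ a, E a N → pr E (j a) a ∈ W := fun a ha =>
      h.pr_mem (h.maps a) (hN a ha).1 (pr_spec _ _)
    have rW := h.union_mem (h.upair_mem (w a ha) (w b hb) e1) (h.upair_mem (w c hc) (w c hc) e2) e3
    have rG : ∀ p, E p r → ∃ a, E a N ∧ IsOPair E p (j a) a := fun p hp => by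
      rcases (e3 p).1 hp with k | k
      · rcases (e1 p).1 k with rfl | rfl
        exacts [⟨a, ha, pr_spec _ _⟩, ⟨b, hb, pr_spec _ _⟩]
      · rcases (e2 p).1 k with rfl | rfl <;> exact ⟨c, hc, pr_spec _ _⟩
    refine ⟨Y, (hU Y).2 ⟨(hT Y).2 fun σ k => ((hY σ).1 k).1, fun σ k => ((hY σ).1 k).2.1,
      fun σ k τ k1 k2 k3 => ?_, r, ?_, rG⟩, fun σ k => ?_⟩
    · obtain ⟨-, -, s, a1, t, a2, u, a3, a4⟩ := (hY σ).1 k
      exact (hY τ).2 ⟨k1, k2, s, a1.mono k3, t, a2.mono k3, u, a3.mono k3, a4⟩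
    · exact (h.trG good_univ h.good (fun W v => ∀ σ, E σ (v 1) → (Fn E σ ∧ ∃ s, App E σ (v 2) s ∧
        ∃ t, App E σ (v 3) t ∧ ∃ u, App E σ (v 4) u ∧ Q W s t u (v 5) (v 6)) → E σ (v 0))
        fun n => [Y, S, a, b, c, p].getD n q).1 (fun σ k1 k2 => (hY σ).2 ⟨k1, k2⟩) r (g3 r rW rG)
        ⟨g2 r rG, a, MP_75a307_lc.app_iff.2 ((e3 _).2 (Or.inl ((e1 _).2 (Or.inl rfl)))),
          b, MP_75a307_lc.app_iff.2 ((e3 _).2 (Or.inl ((e1 _).2 (Or.inr rfl)))),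
          c, MP_75a307_lc.app_iff.2 ((e3 _).2 (Or.inr ((e2 _).2 (Or.inl rfl)))), k⟩
    · obtain ⟨a0, -, s, a1, t, a2, u, a3, a4⟩ := (hY σ).1 k
      exact ⟨s, a1, t, a2, u, a3, inK σ a s a0 a1, a4⟩
  have key2 : ∀ (Q : Set M → M → M → M → Prop),
      (∀ i j k, RD E (Good E) fun W v => Q W (v i) (v j) (v k)) →
      ∀ a b p, E a N → E b N → Q W a b (j p) → A2 E U a b fun s t => E s K ∧ Q Set.univ s t p :=
    fun Q hQ a b p ha hb k => (key (fun W s t _ p _ => Q W s t p) (fun _ _ _ _ _ => hQ _ _ _)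
      a b a p p ha hb ha k).mono fun σ ⟨s, a1, t, a2, _, _, a3⟩ => ⟨s, a1, t, a2, a3⟩
  have rev : ∀ (Q : Set M → M → M → M → M → Prop),
      (∀ i j k l, RD E (Good E) fun W v => Q W (v i) (v j) (v k) (v l)) →
      ∀ a b p q, (A2 E U a b fun s t => Q Set.univ s t p q) → Q W a b (j p) (j q) := by
    rintro Q hQ a b p q ⟨Y, hY, k⟩
    obtain ⟨-, -, -, r, r1, r2⟩ := (hU Y).1 hY
    obtain ⟨s, a1, t, a2, a3⟩ := (h.tr5 (fun W Y a b p q => ∀ σ, E σ Y → ∃ s, App E σ a s ∧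
      ∃ t, App E σ b t ∧ Q W s t p q) Y a b p q).1 k r r1
    rwa [← h.inj.1 (g1 r r2 _ _ a1), ← h.inj.1 (g1 r r2 _ _ a2)] at a3
  refine ⟨U, ⟨fun Y k => ((hU Y).1 k).2.1, fun Y k => ?_, fun Y k Y' k' => ?_,
    fun a ha X _ => ?_, fun a ha b hb => ⟨_, pN a b ha hb, pr_spec _ _, ?_⟩,
    fun a ha b hb => ⟨tN a ha b hb, ?_⟩, fun a ha c hc g _ k => ?_,
    fun a ha => ⟨(hK a ha).1, ?_⟩, fun X _ ⟨x, hx⟩ => ?_⟩, fun R a b ha hb k => ?_,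
    fun Y k σ k' => (hS σ).1 ((hT Y).1 ((hU Y).1 k).1 σ k')⟩
  · obtain ⟨-, -, -, r, r1, -⟩ := (hU Y).1 k
    exact (h.tr1 (fun _ Y => ∃ σ, E σ Y) Y).2 ⟨r, r1⟩
  · obtain ⟨a0, a1, a2, r, a3, a4⟩ := (hU Y).1 k
    obtain ⟨-, b1, b2, r', b3, b4⟩ := (hU Y').1 k'
    obtain ⟨Z, hZ⟩ := sep E Y fun σ => E σ Y'
    obtain ⟨t, ht⟩ := ex_union E r r'
    have tW := h.union_mem (h.trans _ (h.maps _) _ a3) (h.trans _ (h.maps _) _ b3) ht
    have tG : ∀ p, E p t → ∃ a, E a N ∧ IsOPair E p (j a) a := fun p hp =>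
      ((ht p).1 hp).elim (a4 p) (b4 p)
    have up : ∀ Y, (∀ σ, E σ Y → ∀ τ, E τ S → Fn E τ → Sub E σ τ → E τ Y) → ∀ r, E r (j Y) →
        Sub E r t → E t (j Y) := fun Y hY r k1 k2 => (h.tr2 (fun _ Y S =>
      ∀ σ, E σ Y → ∀ τ, E τ S → Fn E τ → Sub E σ τ → E τ Y) Y S).1 hY r k1 t (g3 t tW tG)
        (g2 t tG) k2
    refine ⟨Z, (hU Z).2 ⟨(hT Z).2 fun σ k => (hT Y).1 a0 σ ((hZ σ).1 k).1,
      fun σ k => a1 σ ((hZ σ).1 k).1, fun σ k τ k1 k2 k3 => (hZ τ).2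
        ⟨a2 σ ((hZ σ).1 k).1 τ k1 k2 k3, b2 σ ((hZ σ).1 k).2 τ k1 k2 k3⟩, t, ?_, tG⟩,
      fun σ k => ((hZ σ).1 k).1, fun σ k => ((hZ σ).1 k).2⟩
    exact (h.tr3 (fun _ Y Y' Z => ∀ σ, E σ Y → E σ Y' → E σ Z) Y Y' Z).1
      (fun σ k1 k2 => (hZ σ).2 ⟨k1, k2⟩) t (up Y a2 r a3 fun p k => (ht p).2 (Or.inl k))
      (up Y' b2 r' b3 fun p k => (ht p).2 (Or.inr k))
  · by_cases k : E a (j X)
    · exact Or.inl ((key2 (fun _ s _ X => E s X) (fun _ _ _ => inferInstance) a a X ha ha k).mono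
        fun σ ⟨s, a1, _, _, a2⟩ => ⟨s, a1, a2⟩)
    · exact Or.inr ((key2 (fun _ s _ X => ¬ E s X) (fun _ _ _ => inferInstance) a a X ha ha k).mono
        fun σ ⟨s, a1, _, _, a2⟩ => ⟨s, a1, a2⟩)
  · exact (key (fun _ s t u _ _ => IsOPair E u s t) (fun _ _ _ _ _ => inferInstance) a b _ a a ha hb
      (pN a b ha hb) (pr_spec _ _)).mono fun σ ⟨s, a1, t, a2, u, a3, _, a4⟩ =>
        ⟨s, a1, t, a2, u, a3, a4⟩
  · exact (key2 (fun _ s t _ => E s t) (fun _ _ _ => inferInstance) b a a (tN a ha b hb) ha hb).mono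
      fun σ ⟨s, a1, t, a2, _, a3⟩ => ⟨s, a1, t, a2, a3⟩
  · obtain ⟨y, k1, k2⟩ := rev (fun _ s t g _ => ∃ y, App E g s y ∧ E y t)
      (fun _ _ _ _ => inferInstance) c a g g k
    exact ⟨y, k2, (key2 (fun _ s t g => App E g s t) (fun _ _ _ => inferInstance) c y g hc
      (tN a ha y k2) k1).mono fun σ ⟨s, a1, t, a2, _, a3⟩ => ⟨s, a1, t, a2, a3⟩⟩
  · exact (key2 (fun _ s _ p => s = p) (fun _ _ _ => inferInstance) a a a (hK a ha).1 (hK a ha).1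
      (hK a ha).2.symm).mono fun σ ⟨s, a1, _, _, _, a2⟩ => a2 ▸ a1
  · obtain ⟨B, hB⟩ := repl E X (fun x z => z = ap E (j (p2 E x)) (p1 E x))
      fun x y y' _ k1 k2 => k1.trans k2.symm
    obtain ⟨z, hz, hm⟩ := found B _ ((hB _).2 ⟨x, hx, rfl⟩)
    obtain ⟨m, m1, rfl⟩ := (hB z).1 hz
    refine ⟨m, m1, fun x' hx' ⟨b, g, a1, a, f, a2, _, _, a3, a4, a5⟩ => ?_⟩
    obtain ⟨y, b1, z, b2, b3⟩ := rev (fun _ s t g f => ∃ y, App E g s y ∧ ∃ z, App E f t z ∧ E y z)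
      (fun _ _ _ _ => inferInstance) b a g f a5
    obtain rfl := pr_eq.1 a1
    obtain rfl := pr_eq.1 a2
    refine hm y ?_ ((hB y).2 ⟨_, hx', ?_⟩)
    · rwa [p1_pr, p2_pr, ap_eq (h.fn a4) b2]
    · rw [p1_pr, p2_pr, ap_eq (h.fn a3) b1]
  · exact (key2 (fun _ s t g => App E g s t) (fun _ _ _ => inferInstance) a b R ha hb k).mono
      fun σ ⟨s, a1, t, a2, _, a3⟩ => ⟨s, a1, t, a2, a3⟩

end Pool.Agent.Lib.MP_75a307_lc
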