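import Pool.Agent.Lib.MP_75a307_lc.Card

/-! Definable elementary embeddings. -/

set_option synthInstance.maxSize 100000
set_option linter.unusedVariables false
set_option linter.unusedSectionVars false

namespace Pool.Agent.Lib.MP_75a307_lc

open Pool.Agent.Lib.MP_1d770b_lc

universe u
variable {M : Type u} {E : M → M → Prop} [hZ : ZF E]

structure El (E : M → M → Prop) (j : M → M) (W : Set M) : Prop where
  dj : D2 E fun x y => j x = y
  dW : D1 E fun x => x ∈ W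
  trans : Tr E W
  maps : ∀ x, j x ∈ W
  elem : ∀ φ v, Sat E φ v ↔ SatW E W φ fun n => j (v n)

theorem ElEmb.el {j : M → M} {W : Set M} {κ : M} (h : ElEmb E j W κ) : El E j W :=
  ⟨D2.of_definable h.defj, fun t _ => D2.of_definable h.defW t t, h.trans, h.maps,
    fun φ v => (h.elem φ v).trans (satW_res φ fun n => ⟨j (v n), h.maps _⟩).symm⟩

theorem El.emb {j : M → M} {W : Set M} {κ : M} (h : El E j W) (ho : IsOrd E κ)
    (hf : ∀ α, E α κ → j α = α) (hm : j κ ≠ κ) : ElEmb E j W κ :=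
  have := nonempty' E
  ⟨D2.definable h.dj, D2.definable fun s _ _ _ => h.dW s, h.trans, h.maps,
    fun φ v => (h.elem φ v).trans (satW_res φ fun n => ⟨j (v n), h.maps _⟩), ho, hf, hm⟩

namespace El

variable {j : M → M} {W : Set M} (h : El E j W)
include h

theorem fj : F1 E j := f1 h.dj

theorem trG {G : Set M → Prop} (g1 : G Set.univ) (g2 : G W)
    (P : Set M → (ℕ → M) → Prop) [d : RD E G P] (v : ℕ → M) :
    P Set.univ v ↔ P W fun n => j (v n) := by
  obtain ⟨φ, hφ⟩ := d.out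
  rw [← hφ _ g1 tr_univ v fun _ => trivial, ← hφ _ g2 h.trans _ fun _ => h.maps _, satW_univ]
  exact h.elem φ v

theorem good : Good E W := by
  obtain ⟨e⟩ := nonempty' E
  exact ⟨h.dW, (h.trG (G := fun _ => True) trivial trivial (fun W _ => ∀ x ∈ W, ∀ α ∈ W,
    (∀ z, E z x → RkW E W z α) → IsOrd E α → ∀ β ∈ W, IsOrd E β → E α β → RkW E W x β)
    fun _ => e).1 good_univ.2⟩

theorem tr0 (P : Set M → Prop) [RD E (Good E) fun W _ => P W] : P Set.univ ↔ P W := by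
  obtain ⟨e⟩ := nonempty' E
  exact h.trG good_univ h.good (fun W _ => P W) fun _ => e

theorem tr1 (P : Set M → M → Prop) [RD E (Good E) fun W v => P W (v 0)] (a : M) :
    P Set.univ a ↔ P W (j a) :=
  h.trG good_univ h.good (fun W v => P W (v 0)) fun _ => a

theorem tr2 (P : Set M → M → M → Prop) [RD E (Good E) fun W v => P W (v 0) (v 1)]
    (a b : M) : P Set.univ a b ↔ P W (j a) (j b) :=
  h.trG good_univ h.good (fun W v => P W (v 0) (v 1)) fun n => [a].getD n b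

theorem tr3 (P : Set M → M → M → M → Prop) [RD E (Good E) fun W v => P W (v 0) (v 1) (v 2)]
    (a b c : M) : P Set.univ a b c ↔ P W (j a) (j b) (j c) :=
  h.trG good_univ h.good (fun W v => P W (v 0) (v 1) (v 2)) fun n => [a, b].getD n c

theorem tr4 (P : Set M → M → M → M → M → Prop)
    [RD E (Good E) fun W v => P W (v 0) (v 1) (v 2) (v 3)]
    (a b c d : M) : P Set.univ a b c d ↔ P W (j a) (j b) (j c) (j d) :=
  h.trG good_univ h.good (fun W v => P W (v 0) (v 1) (v 2) (v 3)) fun n => [a, b, c].getD n d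

theorem tr5 (P : Set M → M → M → M → M → M → Prop)
    [RD E (Good E) fun W v => P W (v 0) (v 1) (v 2) (v 3) (v 4)]
    (a b c d e : M) : P Set.univ a b c d e ↔ P W (j a) (j b) (j c) (j d) (j e) :=
  h.trG good_univ h.good (fun W v => P W (v 0) (v 1) (v 2) (v 3) (v 4))
    fun n => [a, b, c, d].getD n e

theorem mem_iff {a b : M} : E (j a) (j b) ↔ E a b := (h.tr2 (fun _ a b => E a b) a b).symm
theorem inj {a b : M} : j a = j b ↔ a = b := (h.tr2 (fun _ a b => a = b) a b).symm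
theorem app_iff {f a b : M} : App E (j f) (j a) (j b) ↔ App E f a b :=
  (h.tr3 (fun _ f a b => App E f a b) f a b).symm
theorem ord {α : M} (ho : IsOrd E α) : IsOrd E (j α) := (h.tr1 (fun _ a => IsOrd E a) _).1 ho
theorem fn {f : M} (hf : Fn E f) : Fn E (j f) := (h.tr1 (fun _ a => Fn E a) _).1 hf
theorem func {f a b : M} (hf : Func E f a b) : Func E (j f) (j a) (j b) :=
  (h.tr3 (fun _ f a b => Func E f a b) _ _ _).1 hf

theorem pr_mem {a b p : M} (ha : a ∈ W) (hb : b ∈ W) (hp : IsOPair E p a b) : p ∈ W := by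
  obtain ⟨c, hc, k⟩ := (h.tr0 fun W => ∀ a ∈ W, ∀ b ∈ W, ∃ c ∈ W, IsOPair E c a b).1
    (fun a _ b _ => ⟨_, trivial, pr_spec a b⟩) a ha b hb
  exact k.uniq hp ▸ hc

theorem upair_mem {a b p : M} (ha : a ∈ W) (hb : b ∈ W) (hp : IsUPair E p a b) : p ∈ W := by
  obtain ⟨c, hc, k⟩ := (h.tr0 fun W => ∀ a ∈ W, ∀ b ∈ W, ∃ c ∈ W, IsUPair E c a b).1
    (fun a _ b _ => let ⟨c, hc⟩ := ex_upair E a b; ⟨c, trivial, hc⟩) a ha b hb
  exact k.uniq hp ▸ hc

theorem union_mem {a b c : M} (ha : a ∈ W) (hb : b ∈ W) (hc : ∀ x, E x c ↔ E x a ∨ E x b) :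
    c ∈ W := by
  obtain ⟨d, hd, h1, h2, h3⟩ := (h.tr0 fun W => ∀ a ∈ W, ∀ b ∈ W, ∃ c ∈ W,
      Sub E a c ∧ Sub E b c ∧ ∀ x, E x c → E x a ∨ E x b).1
    (fun a _ b _ => let ⟨c, hc⟩ := ex_union E a b
      ⟨c, trivial, fun x hx => (hc x).2 (Or.inl hx), fun x hx => (hc x).2 (Or.inr hx),
        fun x => (hc x).1⟩) a ha b hb
  have : d = c := ext' E fun x => Iff.trans ⟨h3 x, fun e => e.elim (h1 x) (h2 x)⟩ (hc x).symm
  exact this ▸ hd

theorem le_map {α : M} (ho : IsOrd E α) : Le E α (j α) := by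
  have := h.fj
  refine ord_ind (fun α => Le E α (j α)) (fun α ho ih => ?_) α ho
  exact ho.le_of_sub (h.ord ho) fun β hβ => (ih β hβ).lt (h.ord ho) (h.mem_iff.2 hβ)

theorem ord_mem {α : M} (ho : IsOrd E α) : α ∈ W := by
  rcases h.le_map ho with k | k
  · exact h.trans _ (h.maps α) _ k
  · exact k ▸ h.maps α

theorem mem_V {K κ x : M} (hK : ∀ x, E x K ↔ Rk E x κ) (hx : x ∈ W) :
    E x (j K) ↔ Rk E x (j κ) :=
  (h.tr2 (fun W K a => ∀ x ∈ W, E x K ↔ Rk E x a) K κ).1 (fun x _ => hK x) x hx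

theorem ia_iff (hC : Choice E) {l : M} (ho : IsOrd E l) : IA E W l ↔ Inacc E W l :=
  (h.tr0 fun W => ∀ l ∈ W, IA E W l ↔ Inacc E W l).1
    (fun l _ => ⟨IA.inacc hC, Inacc.ia hC⟩) l (h.ord_mem ho)

theorem inacc_down (hC : Choice E) {l : M} (hl : Inacc E Set.univ l) : Inacc E W l :=
  (h.ia_iff hC hl.1).1 ((hl.ia hC).down W)

theorem lim_below (hC : Choice E) {l a : M} (hl : Inacc E W l) (ha : E a l) :
    ∃ n, E n l ∧ E a n ∧ Lim E n :=
  (h.tr0 fun W => ∀ l ∈ W, Inacc E W l → ∀ a, E a l → ∃ n, E n l ∧ E a n ∧ Lim E n).1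
    (fun l _ hl a ha => (hl.ia hC).lim_below ha) l (h.ord_mem hl.1) hl a ha

theorem inacc_lim {l : M} (hl : Inacc E W l) : Lim E l :=
  (h.tr0 fun W => ∀ l ∈ W, Inacc E W l → Lim E l).1 (fun l _ hl => hl.lim) l (h.ord_mem hl.1) hl

theorem dInacc : D1 E (Inacc E W) := fun t _ => by
  have := h.dW
  unfold Inacc Reg; infer_instance

theorem ex_star {a l : M} (hl : Inacc E W l) (ha : E a l) : ∃ s, Le E s l ∧ Star E W a s := by
  have := h.dInacc
  obtain ⟨s, h1, h2, h3⟩ := ord_min (fun s => E a s ∧ Inacc E W s) hl.1 ⟨ha, hl⟩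
  exact ⟨s, h1.le_of_not hl.1 fun k => h3 l k ⟨ha, hl⟩, h2.1, h2.2,
    fun t k1 k2 k3 => h3 t k1 ⟨k2, k3⟩⟩

end El

theorem el_id : El E id Set.univ :=
  ⟨fun s t _ _ => inferInstanceAs (Df E fun v => s v = t v), fun _ _ => inferInstance, tr_univ,
    fun _ => trivial, fun φ v => (satW_univ φ v).symm⟩

theorem Star.le {W : Set M} {a s l : M} (h : Star E W a s) (ha : E a l) (hl : Inacc E W l) :
    Le E s l := h.2.1.1.le_of_not hl.1 fun k => h.2.2 l k ha hl

namespace ElEmb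

variable {j : M → M} {W : Set M} {κ : M} (h : ElEmb E j W κ)
include h

theorem lt : E κ (j κ) := (h.el.le_map h.ord).resolve_right fun e => h.moves e.symm

theorem fixV {x : M} (hx : Rk E x κ) : j x = x := by
  have := h.el.fj
  have key : ∀ β, IsOrd E β → Le E β κ → ∀ x, Rk E x β → j x = x := by
    refine ord_ind (fun β => Le E β κ → ∀ x, Rk E x β → j x = x) fun β ho ih hβ x hx => ?_
    obtain ⟨γ, hγ, H⟩ := hx.elim
    have hγκ := hβ.sub h.ord γ hγ
    have H' := (h.el.tr2 (fun _ x γ => ∀ z, E z x → Rk E z γ) x γ).1 H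
    rw [h.fix γ hγκ] at H'
    refine ext' E fun y => ⟨fun hy => ?_, fun hy => ?_⟩
    · rwa [← ih γ hγ (Or.inl hγκ) y (H' y hy), h.el.mem_iff] at hy
    · rw [← ih γ hγ (Or.inl hγκ) y (H y hy), h.el.mem_iff]; exact hy
  exact key κ h.ord (Or.inr rfl) x hx

theorem app {f a b : M} (ha : E a κ) (hb : E b κ) : App E (j f) a b ↔ App E f a b := by
  rw [← h.el.app_iff (f := f), h.fix a ha, h.fix b hb]

theorem ia : IA E Set.univ κ := by
  have hl : Lim E κ := ⟨h.ord, fun α hα => by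
    obtain ⟨s, hs⟩ := ex_suc E α
    rcases hs.le h.ord hα with k | rfl
    · exact ⟨s, k, hs.self⟩
    · have := (h.el.tr2 (fun _ s α => IsSuc E s α) s α).1 hs
      rw [h.fix α hα] at this
      exact (h.moves (this.uniq hs)).elim⟩
  have hne : ∃ z, E z κ := (h.el.tr1 (fun _ k => ∃ z, E z k) κ).2 ⟨κ, h.lt⟩
  refine ⟨h.ord, (h.el.tr1 (fun _ k => ∃ y, E y k ∧ Lim E y ∧ ∃ z, E z y) κ).2 ⟨κ, h.lt, hl, hne⟩,
    fun x _ hx f _ H => ?_⟩
  refine (h.el.tr3 (fun _ k x f => ∃ b, E b k ∧ ∀ u, E u x → ∃ y, E y b ∧ App E f u y) κ x f).2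
    ⟨κ, h.lt, fun u hu => ?_⟩
  rw [h.fixV hx] at hu
  obtain ⟨y, h1, h2⟩ := H u hu
  refine ⟨y, h1, ?_⟩
  rw [← h.fixV (hx.mem hu), ← h.fix y h1]
  exact h.el.app_iff.2 h2

theorem star (hC : Choice E) {α : M} (hα : E α κ) : ∃ s, E s κ ∧ Star E Set.univ α s := by
  have := (h.el.tr2 (fun W k α => ∃ l, E l k ∧ E α l ∧ Inacc E W l) κ α).2
    ⟨κ, h.lt, (h.fix α hα).symm ▸ hα, h.el.inacc_down hC (h.ia.inacc hC)⟩
  obtain ⟨l, h1, h2, h3⟩ := this
  obtain ⟨s, h4, h5⟩ := el_id.ex_star h3 h2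
  exact ⟨s, h4.lt h.ord h1, h5⟩

theorem inacc_iff {l : M} (hl : E l κ) : Inacc E Set.univ l ↔ Inacc E W l := by
  have := h.el.tr1 (fun W l => Inacc E W l) l
  rwa [h.fix l hl] at this

/-- values `j(g)(κ)` for `g < *` -/
theorem below {g y l : M} (hg : Below E g κ) (hy : App E (j g) κ y) (hl : E κ l)
    (hi : Inacc E W l) : E y l :=
  (h.el.tr1 (fun W g => ∀ α y, App E g α y → ∀ l ∈ W, E α l → Inacc E W l → E y l) g).1
    (fun α y k l _ => hg.2 α y k l) κ y hy l (h.el.ord_mem hi.1) hl hi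

theorem val {g : M} (hg : Func E g κ κ) : ∃ y, E y (j κ) ∧ App E (j g) κ y :=
  (h.el.func hg).tot h.lt

end ElEmb

end Pool.Agent.Lib.MP_75a307_lc
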