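import Pool.Agent.Lib.MP_75a307_lc.El

/-! A first-order presentation of extenders. -/

set_option synthInstance.maxSize 100000
set_option linter.unusedVariables false
set_option linter.unusedSectionVars false

namespace Pool.Agent.Lib.MP_75a307_lc

open Pool.Agent.Lib.MP_1d770b_lc

universe u
variable {M : Type u} {E : M → M → Prop}

abbrev AE (E : M → M → Prop) (U : M) (P : M → Prop) : Prop := ∃ Y, E Y U ∧ ∀ σ, E σ Y → P σ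

abbrev A2 (E : M → M → Prop) (U a b : M) (P : M → M → Prop) : Prop :=
  AE E U fun σ => ∃ s, App E σ a s ∧ ∃ t, App E σ b t ∧ P s t

def Prec (E : M → M → Prop) (N U x' x : M) : Prop :=
  ∃ b g, IsOPair E x' b g ∧ ∃ a f, IsOPair E x a f ∧ E b N ∧ E a N ∧ Fn E g ∧ Fn E f ∧
    A2 E U b a fun s t => ∃ y, App E g s y ∧ ∃ z, App E f t z ∧ E y z

def Ext (E : M → M → Prop) (W : Set M) (K N U : M) : Prop :=
  (∀ Y, E Y U → ∀ σ, E σ Y → Fn E σ) ∧ (∀ Y, E Y U → ∃ σ, E σ Y) ∧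
  (∀ Y, E Y U → ∀ Y', E Y' U → ∃ Z, E Z U ∧ Sub E Z Y ∧ Sub E Z Y') ∧
  (∀ a, E a N → ∀ X ∈ W, (AE E U fun σ => ∃ s, App E σ a s ∧ E s K ∧ E s X) ∨
    AE E U fun σ => ∃ s, App E σ a s ∧ E s K ∧ ¬ E s X) ∧
  (∀ a, E a N → ∀ b, E b N → ∃ p, E p N ∧ IsOPair E p a b ∧ AE E U fun σ =>
    ∃ s, App E σ a s ∧ ∃ t, App E σ b t ∧ ∃ q, App E σ p q ∧ IsOPair E q s t) ∧
  (∀ a, E a N → ∀ b, E b a → E b N ∧ A2 E U b a fun s t => E s t) ∧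
  (∀ a, E a N → ∀ c, E c N → ∀ g ∈ W, (A2 E U c a fun s t => ∃ y, App E g s y ∧ E y t) →
    ∃ b, E b a ∧ A2 E U c b fun s t => App E g s t) ∧
  (∀ a, E a K → E a N ∧ AE E U fun σ => App E σ a a) ∧
  ∀ S ∈ W, (∃ x, E x S) → ∃ x, E x S ∧ ∀ x', E x' S → ¬ Prec E N U x' x

instance RD.prec {G : Set M → Prop} (i j k l : ℕ) :
    RD E G fun _ v => Prec E (v i) (v j) (v k) (v l) := by unfold Prec; infer_instance

instance RD.ext {G : Set M → Prop} (i j k : ℕ) :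
    RD E G fun W v => Ext E W (v i) (v j) (v k) := by unfold Ext; infer_instance

theorem Ext.down {K N U : M} (h : Ext E Set.univ K N U) (W : Set M) : Ext E W K N U :=
  let ⟨h1, h2, h3, h4, h5, h6, h7, h8, h9⟩ := h
  ⟨h1, h2, h3, fun a ha X _ => h4 a ha X trivial, h5, h6,
    fun a ha c hc g _ => h7 a ha c hc g trivial, h8, fun S _ => h9 S trivial⟩

theorem AE.mono {U : M} {P Q : M → Prop} (h : AE E U P) (H : ∀ σ, P σ → Q σ) : AE E U Q :=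
  let ⟨Y, h1, h2⟩ := h; ⟨Y, h1, fun σ hσ => H σ (h2 σ hσ)⟩

variable [hZ : ZF E]

theorem ex_op (P : M → M → Prop) [h : Df E fun v => P (v 0) (v 1)]
    (hb : ∀ x, ∃ b, ∀ z, P x z → E z b) : ∃ F : M → M, F1 E F ∧ ∀ x z, E z (F x) ↔ P x z := by
  have h2 := h.d2
  have : ∀ x, ∃ y, ∀ z, E z y ↔ P x z := fun x => by
    obtain ⟨b, hb⟩ := hb x
    obtain ⟨y, hy⟩ := sep E b (fun z => P x z)
    exact ⟨y, fun z => (hy z).trans ⟨fun k => k.2, fun k => ⟨hb z k, k⟩⟩⟩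
  choose F hF using this
  exact ⟨F, f1 fun s t _ _ => Df.congr (P := fun v => ∀ z, E z (t v) ↔ P (s v) z) inferInstance
    fun v => ⟨fun k => ext' E fun z => (hF _ z).trans (k z).symm, fun k z => k ▸ hF _ z⟩, hF⟩

variable (E) in
theorem ex_proj : ∃ F : (M → M) × (M → M), F1 E F.1 ∧ F1 E F.2 ∧
    ∀ a b, F.1 (pr E a b) = a ∧ F.2 (pr E a b) = b := by
  have hb : ∀ x, ∃ c, ∀ a b z, IsOPair E x a b → (E z a ∨ E z b) → E z c := fun x => by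
    obtain ⟨c, hc⟩ := ex_sUnion E x
    obtain ⟨d, hd⟩ := ex_sUnion E c
    refine ⟨d, fun a b z ⟨s, t, _, ht, hp⟩ k => ?_⟩
    have := (hp t).2 (Or.inr rfl)
    rcases k with k | k
    · exact (hd z).2 ⟨a, (hc a).2 ⟨t, this, (ht a).2 (Or.inl rfl)⟩, k⟩
    · exact (hd z).2 ⟨b, (hc b).2 ⟨t, this, (ht b).2 (Or.inr rfl)⟩, k⟩
  obtain ⟨F, F1, hF⟩ := ex_op (E := E) (fun x z => ∃ a b, IsOPair E x a b ∧ E z a) fun x =>
    let ⟨c, hc⟩ := hb x; ⟨c, fun z ⟨a, b, h1, h2⟩ => hc a b z h1 (Or.inl h2)⟩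
  obtain ⟨G, G1, hG⟩ := ex_op (E := E) (fun x z => ∃ a b, IsOPair E x a b ∧ E z b) fun x =>
    let ⟨c, hc⟩ := hb x; ⟨c, fun z ⟨a, b, h1, h2⟩ => hc a b z h1 (Or.inr h2)⟩
  refine ⟨(F, G), F1, G1, fun a b => ⟨ext' E fun z => (hF _ z).trans ?_,
    ext' E fun z => (hG _ z).trans ?_⟩⟩
  · exact ⟨fun ⟨a', b', h1, h2⟩ => (h1.inj (pr_spec a b)).1 ▸ h2, fun h => ⟨a, b, pr_spec a b, h⟩⟩
  · exact ⟨fun ⟨a', b', h1, h2⟩ => (h1.inj (pr_spec a b)).2 ▸ h2, fun h => ⟨a, b, pr_spec a b, h⟩⟩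

variable (E) in
noncomputable def p1 : M → M := (ex_proj E).choose.1
variable (E) in
noncomputable def p2 : M → M := (ex_proj E).choose.2

instance (t : (ℕ → M) → M) [DT E t] : DT E fun v => p1 E (t v) := (ex_proj E).choose_spec.1 t
instance (t : (ℕ → M) → M) [DT E t] : DT E fun v => p2 E (t v) := (ex_proj E).choose_spec.2.1 t
@[simp] theorem p1_pr (a b : M) : p1 E (pr E a b) = a := ((ex_proj E).choose_spec.2.2 a b).1
@[simp] theorem p2_pr (a b : M) : p2 E (pr E a b) = b := ((ex_proj E).choose_spec.2.2 a b).2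

def Tot (E : M → M → Prop) (K f : M) : Prop := Fn E f ∧ ∀ s, E s K → ∃ y, App E f s y

instance (a b : (ℕ → M) → M) [IsT a] [IsT b] : Df E fun v => Tot E (a v) (b v) := by
  unfold Tot; infer_instance

theorem Tot.app {K f s : M} (h : Tot E K f) (hs : E s K) : App E f s (ap E f s) :=
  app_ap h.1 (h.2 s hs)

/-- Skolem functions -/
theorem skolem (hC : Choice E) (K : M) (P : M → M → Prop) [h : Df E fun v => P (v 0) (v 1)] :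
    ∃ g, Tot E K g ∧ (∀ p, E p g → ∃ s w, IsOPair E p s w ∧ E s K ∧ (P s w ∨ w = s)) ∧
      ∀ s, E s K → (∃ w, P s w) → P s (ap E g s) := by
  have h2 := h.d2
  obtain ⟨g, g1, g2, g3, g4⟩ := ac hC K (fun s w => P s w ∨ ((¬ ∃ w', P s w') ∧ w = s))
  have ht : Tot E K g := ⟨g2, fun s hs => g4 s hs (by
    by_cases k : ∃ w, P s w
    · exact let ⟨w, k⟩ := k; ⟨w, Or.inl k⟩
    · exact ⟨s, Or.inr ⟨k, rfl⟩⟩)⟩
  refine ⟨g, ht, fun p hp => ?_, fun s hs k => (g3 _ _ (ht.app hs)).2.elim id fun k' => (k'.1 k).elim⟩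
  obtain ⟨s, w, k1, k2, k3⟩ := g1 p hp
  exact ⟨s, w, k1, k2, k3.imp_right fun k => k.2⟩

theorem lam (hC : Choice E) (K : M) (t : M → M) [h : Df E fun v => v 1 = t (v 0)] :
    ∃ g, Tot E K g ∧ ∀ s, E s K → ap E g s = t s :=
  let ⟨g, h1, _, h2⟩ := skolem hC K (fun s w => w = t s); ⟨g, h1, fun s hs => h2 s hs ⟨_, rfl⟩⟩

namespace Ext

variable {K N U : M} (h : Ext E Set.univ K N U)
include h

theorem mono {P Q : M → Prop} (k : AE E U P) (H : ∀ σ, Fn E σ → P σ → Q σ) : AE E U Q :=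
  let ⟨Y, h1, h2⟩ := k; ⟨Y, h1, fun σ hσ => H σ (h.1 Y h1 σ hσ) (h2 σ hσ)⟩

theorem and {P Q : M → Prop} (k : AE E U P) (k' : AE E U Q) : AE E U fun σ => P σ ∧ Q σ :=
  let ⟨Y, h1, h2⟩ := k; let ⟨Y', h3, h4⟩ := k'; let ⟨Z, h5, h6, h7⟩ := h.2.2.1 Y h1 Y' h3
  ⟨Z, h5, fun σ hσ => ⟨h2 σ (h6 σ hσ), h4 σ (h7 σ hσ)⟩⟩

theorem ex {P : M → Prop} (k : AE E U P) : ∃ σ, P σ :=
  let ⟨Y, h1, h2⟩ := k; let ⟨σ, hσ⟩ := h.2.1 Y h1; ⟨σ, h2 σ hσ⟩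

theorem not_both {P Q : M → Prop} (k : AE E U P) (k' : AE E U Q) (H : ∀ σ, P σ → Q σ → False) :
    False := let ⟨σ, h1, h2⟩ := h.ex (h.and k k'); H σ h1 h2

theorem dom {a : M} (ha : E a N) : AE E U fun σ => App E σ a (ap E σ a) ∧ E (ap E σ a) K := by
  rcases h.2.2.2.1 a ha K trivial with k | k <;>
  exact h.mono k fun σ hσ ⟨s, h1, h2, _⟩ => (ap_eq hσ h1).symm ▸ ⟨h1, h2⟩

theorem ult {a : M} (ha : E a N) (P : M → Prop) [Df E fun v => P (v 0)] :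
    (AE E U fun σ => P (ap E σ a)) ∨ AE E U fun σ => ¬ P (ap E σ a) := by
  obtain ⟨X, hX⟩ := sep E K P
  refine (h.2.2.2.1 a ha X trivial).imp (fun k => h.mono k ?_) fun k => h.mono k ?_
  · exact fun σ hσ ⟨s, h1, _, h3⟩ => (ap_eq hσ h1).symm ▸ ((hX s).1 h3).2
  · exact fun σ hσ ⟨s, h1, h2, h3⟩ => (ap_eq hσ h1).symm ▸ fun k => h3 ((hX s).2 ⟨h2, k⟩)

theorem pair {a b : M} (ha : E a N) (hb : E b N) : E (pr E a b) N ∧ AE E U fun σ =>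
    E (ap E σ (pr E a b)) K ∧ p1 E (ap E σ (pr E a b)) = ap E σ a ∧
      p2 E (ap E σ (pr E a b)) = ap E σ b := by
  obtain ⟨p, h1, h2, h3⟩ := h.2.2.2.2.1 a ha b hb
  obtain rfl := pr_eq.1 h2
  refine ⟨h1, h.mono (h.and h3 (h.dom h1)) fun σ hσ ⟨⟨s, k1, t, k2, q, k3, k4⟩, k5⟩ => ⟨k5.2, ?_⟩⟩
  rw [ap_eq hσ k1, ap_eq hσ k2, ap_eq hσ k3, pr_eq.1 k4]
  simp

theorem a2 {a b : M} (ha : E a N) (hb : E b N) {P : M → M → Prop} :
    A2 E U a b P ↔ AE E U fun σ => P (ap E σ a) (ap E σ b) :=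
  ⟨fun k => h.mono k fun σ hσ ⟨s, k1, t, k2, k3⟩ => by rwa [ap_eq hσ k1, ap_eq hσ k2],
    fun k => (h.and k (h.and (h.dom ha) (h.dom hb))).mono fun σ ⟨k1, k2, k3⟩ =>
      ⟨_, k2.1, _, k3.1, k1⟩⟩

theorem n1 {a b : M} (ha : E a N) (hb : E b a) :
    E b N ∧ AE E U fun σ => E (ap E σ b) (ap E σ a) :=
  let ⟨h1, h2⟩ := h.2.2.2.2.2.1 a ha b hb; ⟨h1, (h.a2 h1 ha).1 h2⟩

theorem n2 {a c g : M} (ha : E a N) (hc : E c N) (hg : Tot E K g)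
    (k : AE E U fun σ => E (ap E g (ap E σ c)) (ap E σ a)) :
    ∃ b, E b a ∧ AE E U fun σ => ap E g (ap E σ c) = ap E σ b := by
  obtain ⟨b, hb, k'⟩ := h.2.2.2.2.2.2.1 a ha c hc g trivial ((h.a2 hc ha).2
    ((h.and k (h.dom hc)).mono fun σ k => ⟨_, hg.app k.2.2, k.1⟩))
  exact ⟨b, hb, ((h.a2 hc (h.n1 ha hb).1).1 k').mono fun σ k => ap_eq hg.1 k⟩

theorem fixK {a : M} (ha : E a K) : E a N ∧ AE E U fun σ => ap E σ a = a :=
  let ⟨h1, h2⟩ := h.2.2.2.2.2.2.2.1 a ha; ⟨h1, h.mono h2 fun σ hσ k => ap_eq hσ k⟩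

end Ext

end Pool.Agent.Lib.MP_75a307_lc
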