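import Pool.Agent.Lib.MP_75a307_lc.Main

/-! Reflection: both known bounds are strict. -/

set_option synthInstance.maxSize 100000
set_option linter.unusedVariables false
set_option linter.unusedSectionVars false

namespace Pool.Agent.Lib.MP_75a307_lc

open Pool.Agent.Lib.MP_1d770b_lc

universe u
variable {M : Type u} {E : M → M → Prop} [hZ : ZF E]

theorem ElEmb.normal {j : M → M} {W : Set M} {κ : M} (h : ElEmb E j W κ) :
    ∃ U, Normal E κ U ∧ ∀ X, E X U ↔ Incl E X κ ∧ E κ (j X) := by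
  have := h.el.fj
  obtain ⟨p, hp⟩ := ex_pow E κ
  obtain ⟨U, hU⟩ := sep E p fun X => E κ (j X)
  replace hU : ∀ X, E X U ↔ Incl E X κ ∧ E κ (j X) := fun X =>
    (hU X).trans (and_congr_left' (hp X))
  refine ⟨U, ⟨⟨h.ord, (omega_lt h.ord).2 h.ia.2.1⟩, fun X k => ((hU X).1 k).1,
    (hU κ).2 ⟨fun _ k => k, h.lt⟩, fun X Y k1 k2 k3 => (hU Y).2 ⟨k3,
      (h.el.tr2 (fun _ X Y => Incl E X Y) X Y).1 k2 κ ((hU X).1 k1).2⟩, fun X Y k => ?_,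
    fun X α k => ?_, fun γ F k1 k2 => ?_, fun X f k1 k2 => ?_⟩, hU⟩
  · exact ((h.el.tr3 (fun _ k X Y => ∀ α, E α k → E α X ∨ E α Y) κ X Y).1 (fun α => (k α).1) κ
      h.lt).imp (fun a => (hU X).2 ⟨fun α b => (k α).2 (Or.inl b), a⟩)
      fun a => (hU Y).2 ⟨fun α b => (k α).2 (Or.inr b), a⟩
  · obtain ⟨k1, k2⟩ := (hU X).1 k
    refine (h.el.tr2 (fun _ X α => ∃ β, E β X ∧ β ≠ α) X α).2 ⟨κ, k2, fun e => ?_⟩
    have : E α κ := h.el.mem_iff.1 (e ▸ h.lt)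
    rw [h.fix α this] at e
    exact no1 (e ▸ this)
  · obtain ⟨Y, hY⟩ := sep E κ fun α => ∀ β X, App E F β X → E α X
    refine ⟨Y, (hU Y).2 ⟨fun α k => ((hY α).1 k).1, (h.el.tr3 (fun _ k F Y => ∀ α, E α k →
      (∀ β X, App E F β X → E α X) → E α Y) κ F Y).1 (fun α a b => (hY α).2 ⟨a, b⟩) κ h.lt
        fun β X k => ?_⟩, fun β X k α a => ((hY α).1 a).2 β X k⟩
    have hβ := ((h.el.func k2).mem k).1
    rw [h.fix γ k1] at hβ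
    obtain ⟨X', a1, a2⟩ := k2.tot hβ
    have := h.el.app_iff.2 a2
    rw [h.fix β (h.ord.tr k1 hβ)] at this
    exact h.el.fn k2.fn _ _ _ this k ▸ ((hU X').1 a1).2
  · obtain ⟨β, a1, a2⟩ := (h.el.tr2 (fun _ X f => ∀ α, E α X → ∃ β, E β α ∧ App E f α β) X f).1
      k2 κ ((hU X).1 k1).2
    obtain ⟨Y, hY⟩ := sep E κ fun α => App E f α β
    refine ⟨β, Y, (hU Y).2 ⟨fun α k => ((hY α).1 k).1, ?_⟩, fun α k => ((hY α).1 k).2⟩
    exact (h.el.tr4 (fun _ k f β Y => ∀ α, E α k → App E f α β → E α Y) κ f β Y).1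
      (fun α a b => (hY α).2 ⟨a, b⟩) κ h.lt ((h.fix β a1).symm ▸ a2)

theorem ElEmb.conc {j : M → M} {W : Set M} {κ : M} (h : ElEmb E j W κ)
    (P : Set M → M → M → Prop) (hP : ∀ i k, RD E (Good E) fun W v => P W (v i) (v k))
    (k : P W κ (j κ)) : Conc E κ fun α => E α κ ∧ P Set.univ α κ := by
  obtain ⟨U, h1, h2⟩ := h.normal
  have := (RD.df (hP 0 1) good_univ).d2
  obtain ⟨X, hX⟩ := sep E κ fun α => P Set.univ α κ
  exact ⟨U, X, h1, (h2 X).2 ⟨fun α a => ((hX α).1 a).1, (h.el.tr2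
    (fun W k X => ∀ α, E α k → P W α k → E α X) κ X).1 (fun α a b => (hX α).2 ⟨a, b⟩) κ h.lt k⟩,
    fun α => (hX α).1⟩

theorem Conc.mono {κ : M} {P Q : M → Prop} (h : Conc E κ P) (H : ∀ α, P α → Q α) : Conc E κ Q :=
  let ⟨U, X, h1, h2, h3⟩ := h; ⟨U, X, h1, h2, fun α k => H α (h3 α k)⟩

def BelowW (E : M → M → Prop) (W : Set M) (g κ : M) : Prop :=
  Func E g κ κ ∧ ∀ α y, App E g α y → ∀ l ∈ W, E α l → Inacc E W l → E y l

instance RD.belowW (i k : ℕ) : RD E (Good E) fun W v => BelowW E W (v i) (v k) := by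
  unfold BelowW; infer_instance

theorem El.below (hC : Choice E) {j : M → M} {W : Set M} (h : El E j W) {g κ : M}
    (k : BelowW E W g κ) : Below E g κ :=
  ⟨k.1, fun α y a l b c => k.2 α y a l (h.ord_mem c.1) b (h.inacc_down hC c)⟩

theorem Below.w {g κ : M} (k : Below E g κ) : BelowW E Set.univ g κ :=
  ⟨k.1, fun α y a l _ => k.2 α y a l⟩

theorem ElEmb.starW (hC : Choice E) {j : M → M} {W : Set M} {κ : M} (h : ElEmb E j W κ) :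
    ∃ s, E s (j κ) ∧ Star E W κ s :=
  (h.el.tr1 (fun W κ => ∀ α, E α κ → ∃ s, E s κ ∧ Star E W α s) κ).1
    (fun α hα => h.star hC hα) κ h.lt

theorem Star.uniq {W : Set M} {a s t : M} (h : Star E W a s) (h' : Star E W a t) : s = t :=
  (h.le h'.1 h'.2.1).resolve_left fun k => h'.2.2 s k h.1 h.2.1

theorem star_shelah (hC : Choice E) {κ : M} (h : StarStrong E κ) : Conc E κ (StarShelah E) := by
  obtain ⟨j, W, h, ν, h1, h2⟩ := h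
  have hl := h.el.inacc_lim h1.2.1
  refine (h.conc (fun W α _ => ∀ g ∈ W, BelowW E W g α → ∃ n ∈ W, ∃ U ∈ W, Wit E W α n U ∧
    ∃ y, E y n ∧ A2 E U α y fun s t => App E g s t) (fun _ _ => inferInstance)
    fun g _ hg => ?_).mono fun α ⟨_, k⟩ g hg => ?_
  · replace hg := h.el.below hC hg
    obtain ⟨y, -, k⟩ := h.val hg.1
    obtain ⟨c, c1, c2, c3⟩ := hl.two h1.1 (h.below hg k h1.1 h1.2.1)
    obtain ⟨n, n1, n2, n3⟩ := h.el.lim_below hC h1.2.1 c1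
    obtain ⟨s, s1, s2⟩ := h.starW hC
    obtain rfl := s2.uniq h1
    obtain ⟨U, -, u2, u3⟩ := h.wit n3 (n3.1.tr n2 c2) (Or.inl ((h.el.ord h.ord).tr s1 n1))
      (h2.le hl.1 (Or.inl n1))
    obtain ⟨u4, u5⟩ := u3 s W hl n1 h2
    exact ⟨n, h.el.ord_mem n3.1, U, u4, u5, y, n3.1.tr n2 c3,
      u2 g κ y (n3.1.rk (n3.1.tr n2 c2)) (n3.1.rk (n3.1.tr n2 c3)) k⟩
  · obtain ⟨n, -, U, -, k1, y, k2, k3⟩ := k g trivial hg.w
    obtain ⟨i, W', a1, a2, -, a3⟩ := k1.emb hC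
    exact ⟨i, W', a1, y, a3 g α y (k1.1.1.rk k1.2.1) (k1.1.1.rk k2) k3,
      a2.le k1.1.1 (Or.inl k2)⟩

def SW (E : M → M → Prop) (W : Set M) (β γ : M) : Prop :=
  ∃ n ∈ W, ∃ U ∈ W, E γ n ∧ Wit E W β n U

instance RD.sw (i k : ℕ) : RD E (Good E) fun W v => SW E W (v i) (v k) := by
  unfold SW; infer_instance

theorem shelah_lower (hC : Choice E) {κ : M} (h : StarShelah E κ) :
    Conc E κ fun β => ∃ s, Star E Set.univ β s ∧ ∀ γ, E γ s → Strong E β γ := by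
  obtain ⟨g0, g1, g2⟩ := ex_func (E := E) κ κ (fun a b => b = a) (fun a k => ⟨a, k, rfl⟩)
    fun _ _ _ _ _ _ a b => a.trans b.symm
  obtain ⟨j0, W0, h0, -⟩ := h g0 ⟨g1, fun α y k l a _ => ((g2 _ _).1 k).2.2 ▸ a⟩
  let P : Set M → M → M → Prop := fun W β y => Lim E y ∧ ∃ n, E n y ∧ Lim E n ∧ E β n ∧
    ((∃ s ∈ W, Star E W β s ∧ ∀ γ, E γ s → SW E W β γ) ∨ ∃ γ, E γ n ∧ ¬ SW E W β γ)
  have rP : ∀ i k, RD E (Good E) fun W v => P W (v i) (v k) := fun _ _ => by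
    simp only [P]; infer_instance
  have := RD.df (rP 0 1) good_univ
  obtain ⟨g, a1, a2⟩ := h0.raise hC (P Set.univ) fun β s hβ hs => by
    have hi := hs.2.1.ia hC
    have : ∃ c, E c s ∧ E β c ∧ ((∃ s ∈ Set.univ, Star E Set.univ β s ∧
        ∀ γ, E γ s → SW E Set.univ β γ) ∨ ∃ γ, E γ c ∧ ¬ SW E Set.univ β γ) := by
      by_cases k : ∀ γ, E γ s → SW E Set.univ β γ
      · obtain ⟨c, c1, c2⟩ := hi.lim.2 β hs.1
        exact ⟨c, c1, c2, Or.inl ⟨s, trivial, hs, k⟩⟩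
      · push Not at k
        obtain ⟨γ, k1, k2⟩ := k
        obtain ⟨c, c1, c2, c3⟩ := hi.lim.two hs.1 k1
        exact ⟨c, c1, c2, Or.inr ⟨γ, c3, k2⟩⟩
    obtain ⟨c, c1, c2, c3⟩ := this
    obtain ⟨n, n1, n2, n3⟩ := hi.lim_below c1
    obtain ⟨y, y1, y2, y3⟩ := hi.lim_below n1
    exact ⟨y, y1, y3, n, y2, n3, n3.1.tr n2 c2,
      c3.imp_right fun ⟨γ, k1, k2⟩ => ⟨γ, n3.1.tr n2 k1, k2⟩⟩
  obtain ⟨j, W, h, y, b1, b2⟩ := h g a1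
  obtain ⟨y1, n, n1, n2, n3, n4⟩ :=
    (h.el.tr1 (fun W g => ∀ β y, App E g β y → P W β y) g).1 a2 κ y b1
  obtain ⟨U, -, -, u⟩ := h.wit n2 n3
    (Or.inl ((h.el.ord h.ord).tr ((h.el.func a1.1).mem b1).2 n1)) (b2.le y1.1 (Or.inl n1))
  obtain ⟨u1, u2⟩ := u y W y1 n1 b2
  refine (h.conc (fun W β _ => ∃ s ∈ W, Star E W β s ∧ ∀ γ, E γ s → SW E W β γ)
    (fun _ _ => inferInstance) (n4.resolve_right fun ⟨γ, k1, k2⟩ =>
      k2 ⟨n, h.el.ord_mem n2.1, U, u1, k1, u2⟩)).mono fun β ⟨_, s, _, k1, k2⟩ =>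
        ⟨s, k1, fun γ hγ => ?_⟩
  obtain ⟨m, -, U', -, c1, c2⟩ := k2 γ hγ
  obtain ⟨i, W', d1, d2, -⟩ := c2.emb hC
  exact ⟨i, W', d1, d2.le c2.1.1 (Or.inl c1)⟩

theorem upper (hC : Choice E) {κ ν : M} (h : Strong E κ ν) (hκ : E κ ν)
    (hν : Inacc E Set.univ ν) : Conc E κ fun α => ∃ μ, E μ κ ∧ Bad E α μ := by
  obtain ⟨j, W, h, hV⟩ := h
  obtain ⟨μ, hl, k0, k1, k2, k3⟩ := h.sup hC
  have hμ := k3 ν (hν.ia hC) hκ fun g y a b => h.below a b hκ (h.el.inacc_down hC hν)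
  obtain ⟨s, s1, s2⟩ := h.starW hC
  have hj : E μ (j κ) := (hl.1.le_of_sub s2.2.1.1 fun z hz =>
    let ⟨g, y, a1, a2, a3⟩ := k2 z hz
    s2.2.1.1.tr (h.below a1 a2 s2.1 s2.2.1) a3).lt (h.el.ord h.ord) s1
  obtain ⟨U, -, u2, u3⟩ := h.wit hl k0 (Or.inl hj) (hV.le hν.1 (Or.inl hμ))
  obtain ⟨u4, u5⟩ := u3 ν W hν.lim hμ hV
  refine (h.conc (fun W α k => ∃ n, E n k ∧ ∃ U ∈ W, Wit E W α n U ∧ ∀ g ∈ W, BelowW E W g α →
    ∃ y, E y n ∧ A2 E U α y fun s t => App E g s t) (fun _ _ => inferInstance)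
    ⟨μ, hj, U, u4, u5, fun g _ hg => ?_⟩).mono fun α ⟨_, n, n1, U', _, a1, a2⟩ => ?_
  · replace hg := h.el.below hC hg
    obtain ⟨y, -, k⟩ := h.val hg.1
    exact ⟨y, k1 g y hg k, u2 g κ y (hl.1.rk k0) (hl.1.rk (k1 g y hg k)) k⟩
  · obtain ⟨i, W', b1, b2, -, b3⟩ := a1.emb hC
    have no := a1.1.1
    have key : ∀ g, Below E g α → ∃ y, E y n ∧ App E (i g) α y := fun g hg =>
      let ⟨y, c1, c2⟩ := a2 g trivial hg.w; ⟨y, c1, b3 g α y (no.rk a1.2.1) (no.rk c1) c2⟩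
    obtain ⟨m, m1, m2, -⟩ := b1.bad hC fun g hg =>
      let ⟨y, c1, c2⟩ := key g hg; ⟨y, c2, b2.le no (Or.inl c1)⟩
    refine ⟨m, (m1.2.2.1.1.1.le_of_sub no fun z hz => ?_).lt h.ord n1, m1⟩
    obtain ⟨g, y, c1, c2, c3⟩ := m2 z hz
    obtain ⟨y', c4, c5⟩ := key g c1
    exact no.tr c4 (b1.el.fn c1.1.fn _ _ _ c2 c5 ▸ c3)

end Pool.Agent.Lib.MP_75a307_lc
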