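import Pool.Agent.Lib.MP_75a307_lc.Der

/-! Bad witnesses and embeddings strong up to the next inaccessible. -/

set_option synthInstance.maxSize 100000
set_option linter.unusedVariables false
set_option linter.unusedSectionVars false

namespace Pool.Agent.Lib.MP_75a307_lc

open Pool.Agent.Lib.MP_1d770b_lc

universe u
variable {M : Type u} {E : M → M → Prop} [hZ : ZF E]

theorem VSub.mem {W : Set M} {α x : M} (h : VSub E W α) (hx : Rk E x α) : x ∈ W :=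
  h x (inV_iff.2 hx)

theorem vsub {W : Set M} {α : M} (h : ∀ x, Rk E x α → x ∈ W) : VSub E W α :=
  fun x hx => h x (inV_iff.1 hx)

theorem VSub.le {W : Set M} {α β : M} (h : VSub E W α) (ho : IsOrd E α) (hβ : Le E β α) :
    VSub E W β := vsub fun x hx => h.mem (hx.mono ho hβ)

/-- `U` is an extender with critical point `κ` and support `V_n` -/
def Wit (E : M → M → Prop) (W : Set M) (κ n U : M) : Prop :=
  Lim E n ∧ E κ n ∧ ∃ K ∈ W, (∀ x ∈ W, E x K ↔ Rk E x κ) ∧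
    ∃ N ∈ W, (∀ x ∈ W, E x N ↔ Rk E x n) ∧ Ext E W K N U

instance RD.wit (i j k : ℕ) : RD E (Good E) fun W v => Wit E W (v i) (v j) (v k) := by
  unfold Wit; infer_instance

theorem Wit.emb (hC : Choice E) {κ n U : M} (h : Wit E Set.univ κ n U) :
    ∃ j W, ElEmb E j W κ ∧ VSub E W n ∧
      (∀ x ∈ W, ∃ a f, Rk E a n ∧ Fn E f ∧ App E (j f) a x) ∧
      ∀ R a b, Rk E a n → Rk E b n → (A2 E U a b fun s t => App E R s t) → App E (j R) a b := by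
  obtain ⟨hl, hκ, K, -, hK, N, -, hN, h⟩ := h
  have hκN := (hN κ trivial).2 (hl.1.rk hκ)
  have ho := hl.1.mem hκ
  obtain ⟨j, W, h1, h2, h3, h4, h5⟩ := h.ultrapower hC hκN
  refine ⟨j, W, h1.emb ho (fun α hα => h3 α ((hK α trivial).2 (ho.rk hα))) fun e => ?_,
    vsub fun x hx => (h2 x ((hN x trivial).2 hx)).1, fun x hx => ?_,
    fun R a b ha hb => h5 R a b ((hN a trivial).2 ha) ((hN b trivial).2 hb)⟩
  · have := ((h1.mem_V (fun x => hK x trivial) (h2 κ hκN).1).1 (h2 κ hκN).2).ord_mem ho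
    exact no1 (e ▸ this)
  · obtain ⟨a, f, k1, k2, k3⟩ := h4 x hx
    exact ⟨a, f, (hN a trivial).1 k1, k2.1, k3⟩

theorem ElEmb.wit {j : M → M} {W : Set M} {κ n : M} (h : ElEmb E j W κ) (hl : Lim E n)
    (hκ : E κ n) (hn : Le E n (j κ)) (hV : VSub E W n) : ∃ U, Wit E Set.univ κ n U ∧
      (∀ R a b, Rk E a n → Rk E b n → App E (j R) a b → A2 E U a b fun s t => App E R s t) ∧
      ∀ l W', Lim E l → E n l → VSub E W' l → U ∈ W' ∧ Wit E W' κ n U := by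
  obtain ⟨K, hK⟩ := ex_V h.ord
  obtain ⟨N, hN⟩ := ex_V hl.1
  obtain ⟨U, h1, h2, h3⟩ := h.el.derived (K := K) (N := N)
    (fun a ha => ⟨(hN a).2 (((hK a).1 ha).lt hl.1 hκ), h.fixV ((hK a).1 ha)⟩)
    (fun a ha => ⟨hV.mem ((hN a).1 ha), (h.el.mem_V hK (hV.mem ((hN a).1 ha))).2
      (((hN a).1 ha).mono (h.el.ord h.ord) hn)⟩)
    (fun a ha b hb => (hN b).2 (((hN a).1 ha).mem hb))
    (fun a b ha hb => (hN _).2 (hl.opair ((hN a).1 ha) ((hN b).1 hb) (pr_spec a b)))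
  refine ⟨U, ⟨hl, hκ, K, trivial, fun x _ => hK x, N, trivial, fun x _ => hN x, h1⟩,
    fun R a b ha hb => h2 R a b ((hN a).2 ha) ((hN b).2 hb), fun l W' k1 k2 k3 =>
      ⟨k3.mem ?_, hl, hκ, K, k3.mem (Rk.intro k1.1 (k1.1.tr k2 hκ) fun z => (hK z).1),
        fun x _ => hK x, N, k3.mem (Rk.intro k1.1 k2 fun z => (hN z).1), fun x _ => hN x, h1.down _⟩⟩
  obtain ⟨D, hD, -⟩ := ex_rel E N K fun _ _ => True
  obtain ⟨S, hS⟩ := ex_pow E D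
  refine Lim.pow k1 (Lim.pow k1 (k1.rel k2 fun p hp => ?_) fun x => (hS x).1) fun Y hY σ hσ =>
    (hS σ).2 fun p hp => ?_
  · obtain ⟨a, s, a1, a2, a3, -⟩ := (hD p).1 hp
    exact ⟨a, s, a3, (hN a).1 a1, ((hK s).1 a2).lt hl.1 hκ⟩
  · obtain ⟨a, s, a1, a2, a3⟩ := h3 Y hY σ hσ p hp
    exact (hD p).2 ⟨a, s, a2, a3, a1, trivial⟩

theorem Bad.inacc (hC : Choice E) {κ μ : M} (h : Bad E κ μ) :
    ∃ j W, ElEmb E j W κ ∧ VSub E W μ ∧ Inacc E W μ := by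
  obtain ⟨-, hκ, hs, ⟨v, hv, e, e1, e2, -⟩, j, W, ⟨h, -⟩, hV, hR⟩ := h
  have ho := hs.1.1
  have nl : ∃ y, E y μ ∧ Lim E y ∧ ∃ z, E z y :=
    let ⟨y, k1, k2⟩ := h.ia.2.1; ⟨y, ho.tr hκ k1, k2⟩
  have hl : Lim E μ := (h.el.tr0 fun W => ∀ m ∈ W, IsOrd E m →
      (∃ y, E y m ∧ Lim E y ∧ ∃ z, E z y) → Reg E W m → Lim E m).1
    (fun m _ ho ⟨y, k1, _, z, k2⟩ hR => ⟨ho, fun α hα => by
      obtain ⟨f, f1, f2⟩ := ex_func (E := E) y m (fun _ t => t = α) (fun _ _ => ⟨α, hα, rfl⟩)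
        fun _ _ _ _ _ _ a b => a.trans b.symm
      obtain ⟨b, b1, b2⟩ := hR y k1 f trivial f1
      exact ⟨b, b1, b2 z α ((f2 _ _).2 ⟨k2, hα, rfl⟩)⟩⟩) μ (h.el.ord_mem ho) ho nl hR
  refine ⟨j, W, h, hV, ho, (omega_lt ho).2 nl, hR, fun α hα p hp k => ?_⟩
  obtain ⟨c, hc, θ, -, c1, c2, c3, c4⟩ := (h.el.tr0 fun W => ∀ p ∈ W, ∃ c ∈ W, ∃ θ ∈ W, IsOrd E θ ∧
      Func E c p θ ∧ OneOne E c ∧ ∀ y, E y θ → ∃ x, App E c x y).1
    (fun p _ => let ⟨c, θ, k1, k2, k3, k4, _⟩ := enum hC p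
      ⟨c, trivial, θ, trivial, k1, k2, k3, k4⟩) p hp
  refine ⟨θ, by_contra fun hn => ?_, c, hc, c2, c3⟩
  have pr : Rk E p μ := Lim.pow hl (ho.rk hα) fun x hx => (k x (h.trans _ hp _ hx)).1 hx
  obtain ⟨g, -, hg⟩ := ex_rel E v p fun s x => ∃ η, App E e s η ∧ App E c x η
  refine cantor (E := E) (a := p) (f := g) (fun s s' x a b => ?_) fun s hs => ?_
  · obtain ⟨-, -, η, a1, a2⟩ := (hg _ _).1 a
    obtain ⟨-, -, η', b1, b2⟩ := (hg _ _).1 b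
    obtain rfl := c2.fn _ _ _ a2 b2
    exact e2 _ _ _ a1 b1
  · have := (hv s).2 (inV_iff.2 (pr.sub hs))
    obtain ⟨η, a1, a2⟩ := e1.tot this
    obtain ⟨x, hx⟩ := c4 η ((ho.le_of_not c1 hn).sub c1 η a1)
    exact ⟨x, (c2.mem hx).1, (hg _ _).2 ⟨this, (c2.mem hx).1, η, a2, hx⟩⟩

theorem bad_star (hC : Choice E) {κ μ : M} (h : Bad E κ μ) : StarStrong E κ := by
  obtain ⟨j, W, h1, h2, h3⟩ := h.inacc hC
  obtain ⟨s, k1, k2⟩ := h1.el.ex_star h3 h.2.1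
  exact ⟨j, W, h1, s, k2, h2.le h3.1 k1⟩

theorem star_super {κ : M} (h : StarStrong E κ) : StarSuper E κ := by
  obtain ⟨j, W, h, ν, h1, h2⟩ := h
  refine ⟨j, W, h, fun g hg => ?_⟩
  obtain ⟨y, -, k⟩ := h.val hg.1
  exact ⟨y, k, h2.le h1.2.1.1 (Or.inl (h.below hg k h1.1 h1.2.1))⟩

instance (a : (ℕ → M) → M) [IsT a] : Df E fun v => Inacc E Set.univ (a v) := el_id.dInacc a
instance (a b : (ℕ → M) → M) [IsT a] [IsT b] : Df E fun v => Below E (a v) (b v) := by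
  unfold Below; infer_instance

theorem ElEmb.raise (hC : Choice E) {j : M → M} {W : Set M} {κ : M} (h : ElEmb E j W κ)
    (P : M → M → Prop) [hP : Df E fun v => P (v 0) (v 1)]
    (H : ∀ α s, E α κ → Star E Set.univ α s → ∃ y, E y s ∧ P α y) :
    ∃ g, Below E g κ ∧ ∀ α y, App E g α y → P α y := by
  have := hP.d2
  obtain ⟨g, g1, g2⟩ := acF hC κ κ (fun α y => P α y ∧ ∀ l, E α l → Inacc E Set.univ l → E y l)
    fun α hα => by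
      obtain ⟨s, k1, k2⟩ := h.star hC hα
      obtain ⟨y, k3, k4⟩ := H α s hα k2
      exact ⟨y, h.ord.tr k1 k3, k4, fun l a b => (k2.le a b).sub b.1 y k3⟩
  exact ⟨g, ⟨g1, fun α y k => (g2 α y k).2.2.2⟩, fun α y k => (g2 α y k).2.2.1⟩

theorem eqp_single {s t a b : M} (hs : IsUPair E s a a) (ht : IsUPair E t b b) : Eqp E s t := by
  obtain ⟨f, f1, f2⟩ := ex_func s t (fun _ _ => True)
    (fun _ _ => ⟨b, (ht b).2 (Or.inl rfl), trivial⟩) fun _ y y' _ k1 k2 _ _ =>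
      (((ht y).1 k1).elim id id).trans (((ht y').1 k2).elim id id).symm
  exact ⟨f, f1, fun x x' y k1 k2 => (((hs x).1 (f1.mem k1).1).elim id id).trans
    (((hs x').1 (f1.mem k2).1).elim id id).symm,
    fun y hy => ⟨a, (f2 _ _).2 ⟨(hs a).2 (Or.inl rfl), hy, trivial⟩⟩⟩

/-- an embedding generated by `V_μ` with `μ` inaccessible in the target is an extender
ultrapower -/
theorem ElEmb.extUlt (hC : Choice E) {j : M → M} {W : Set M} {κ μ : M} (h : ElEmb E j W κ)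
    (hμ : E μ (j κ)) (hi : Inacc E W μ) (hV : VSub E W μ)
    (hg : ∀ x ∈ W, ∃ a f, Rk E a μ ∧ Fn E f ∧ App E (j f) a x) :
    ExtUlt E j W κ μ ∧ IsCard E μ ∧ ∃ v, (∀ x, E x v ↔ InV E x μ) ∧ Eqp E v μ := by
  obtain ⟨K, hK⟩ := ex_V h.ord
  obtain ⟨c, c1, c2, c3⟩ := coding hC h.ia hK
  have jo := h.el.ord h.ord
  obtain ⟨d1, d2⟩ := (h.el.tr2 (fun W c κ => ∀ l, E l κ → IA E W l →
    (∀ x y, App E c x y → (Rk E x l ↔ E y l)) ∧ ∀ y, E y l → ∃ x, App E c x y) c κ).1 c3 μ hμ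
    ((h.el.ia_iff hC hi.1).2 hi)
  have d3 := h.el.func c1
  have d4 := (h.el.tr1 (fun _ c => OneOne E c) c).1 c2
  have d5 : ∀ x, Rk E x μ → ∃ y, E y μ ∧ App E (j c) x y := fun x hx => by
    obtain ⟨y, -, k⟩ := d3.tot ((h.el.mem_V hK (hV.mem hx)).2 (hx.lt jo hμ))
    exact ⟨y, (d1 x y k).1 hx, k⟩
  refine ⟨⟨h, fun x hx => jo.tr hμ hx, fun x hx => ?_⟩, ⟨hi.1, fun α hα ⟨e, e1, e2, _⟩ => ?_⟩, ?_⟩
  · obtain ⟨a, f, a1, a2, a3⟩ := hg x hx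
    obtain ⟨ξ, b1, b2⟩ := d5 a a1
    obtain ⟨t, ht⟩ := ex_upair E ξ ξ
    obtain ⟨p, hp⟩ := ex_pow E κ
    obtain ⟨d, hd⟩ := sep E p fun s => Eqp E s t
    obtain ⟨g, g1, g2, g3⟩ := skolem hC d
      fun s y => ∃ η u, IsUPair E s η η ∧ App E c u η ∧ App E f u y
    obtain ⟨b, hb⟩ := ex_fld E g
    obtain ⟨w, hw⟩ := ex_omega E
    obtain ⟨e, he⟩ := ex_emp E
    obtain ⟨n, hn⟩ := ex_suc E e
    refine ⟨t, d, b, g, fun z hz => ((ht z).1 hz).elim (· ▸ b1) (· ▸ b1), ⟨w, n, hw,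
      hw.suc hn (hw.emp he), eqp_single ht fun z => (hn z).trans
        ⟨fun k => Or.inr (k.resolve_left (he z)), fun k => Or.inr (k.elim id id)⟩⟩,
      fun s => (hd s).trans (and_congr_left' (hp s)), ⟨⟨fun q hq => ?_, g1.1⟩, g1.2⟩, ?_⟩
    · obtain ⟨s, y, k1, k2, -⟩ := g2 q hq
      exact ⟨s, y, k2, (hb s y ⟨q, k1, hq⟩).2, k1⟩
    · refine (h.el.tr3 (fun W c f g => ∀ u η, App E c u η → ∀ y, App E f u y → ∀ s ∈ W,
        IsUPair E s η η → App E g s y) c f g).1 (fun u η k1 y k2 s _ k3 => ?_) a ξ b2 x a3 t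
        (h.el.upair_mem (h.el.ord_mem (hi.1.mem b1)) (h.el.ord_mem (hi.1.mem b1)) ht) ht
      have hs : E s d := (hd s).2 ⟨(hp s).2 fun z hz =>
        ((k3 z).1 hz).elim (· ▸ (c1.mem k1).2) (· ▸ (c1.mem k1).2), eqp_single k3 ht⟩
      obtain ⟨η', u', k4, k5, k6⟩ := g3 s hs ⟨y, η, u, k3, k1, k2⟩
      obtain rfl : η = η' := ((k4 η).1 ((k3 η).2 (Or.inl rfl))).elim id id
      obtain rfl := c2 _ _ _ k1 k5
      exact a2 _ _ _ k6 k2 ▸ g1.app hs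
  · obtain ⟨p, hp⟩ := ex_pow E α
    obtain ⟨β, hβ, f, -, f1, f2⟩ := hi.2.2.2 α hα p (hV.mem (Lim.pow (h.el.inacc_lim hi)
      (hi.1.rk hα) fun x => (hp x).1)) fun x _ => hp x
    obtain ⟨g, g1, g2⟩ := comp_oneOne p α f2 e2
    refine cantor g1 (a := α) fun s hs => ?_
    obtain ⟨y, k1, k2⟩ := f1.tot ((hp s).2 hs)
    obtain ⟨z, k3, k4⟩ := e1.tot (hi.1.tr hβ k1)
    exact ⟨z, k3, (g2 _ _).2 ⟨(hp s).2 hs, k3, y, k2, k4⟩⟩
  · have := h.el.fj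
    obtain ⟨v, hv⟩ := ex_V hi.1
    obtain ⟨e, e1, e2⟩ := ex_func v μ (fun x y => App E (j c) x y) (fun x hx => d5 x ((hv x).1 hx))
      fun x y y' _ _ _ => d3.fn x y y'
    refine ⟨v, fun x => (hv x).trans inV_iff.symm, e, e1,
      fun x x' y a b => d4 _ _ _ ((e2 _ _).1 a).2.2 ((e2 _ _).1 b).2.2, fun y hy => ?_⟩
    obtain ⟨x, hx⟩ := d2 y hy
    exact ⟨x, (e2 _ _).2 ⟨(hv x).2 ((d1 x y hx).2 hy), hy, hx⟩⟩

/-- the supremum of the values `j(g)(κ)`, `g < *` -/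
theorem ElEmb.sup (hC : Choice E) {j : M → M} {W : Set M} {κ : M} (h : ElEmb E j W κ) :
    ∃ μ, Lim E μ ∧ E κ μ ∧ (∀ g y, Below E g κ → App E (j g) κ y → E y μ) ∧
      (∀ z, E z μ → ∃ g y, Below E g κ ∧ App E (j g) κ y ∧ E z y) ∧
      ∀ l, IA E Set.univ l → E κ l → (∀ g y, Below E g κ → App E (j g) κ y → E y l) → E μ l := by
  have := h.el.fj
  have jo := h.el.ord h.ord
  obtain ⟨D, hD, -⟩ := ex_rel E κ κ fun _ _ => True
  obtain ⟨P, hP⟩ := ex_pow E D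
  obtain ⟨I, hI⟩ := sep E P fun g => Below E g κ
  replace hI : ∀ g, E g I ↔ E g P ∧ Below E g κ ∧ True := by simpa using hI
  have inI : ∀ g, Below E g κ → E g I := fun g hg => (hI g).2 ⟨(hP g).2 fun p hp =>
    let ⟨a, b, k1, k2, k3⟩ := hg.1.1.1 p hp; (hD p).2 ⟨a, b, k1, k2, k3, trivial⟩, hg, trivial⟩
  obtain ⟨B, hB⟩ := repl E I (fun g y => App E (j g) κ y)
    fun g y y' hg => h.el.fn ((hI g).1 hg).2.1.1.fn κ y y'
  obtain ⟨μ, hμ⟩ := ex_sUnion E B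
  have lt : ∀ g y, Below E g κ → App E (j g) κ y → E y (j κ) := fun g y hg k =>
    ((h.el.func hg.1).mem k).2
  have k2 : ∀ z, E z μ → ∃ g y, Below E g κ ∧ App E (j g) κ y ∧ E z y := fun z hz => by
    obtain ⟨y, k1, k2⟩ := (hμ z).1 hz
    obtain ⟨g, k3, k4⟩ := (hB y).1 k1
    exact ⟨g, y, ((hI g).1 k3).2.1, k4, k2⟩
  have k3 : ∀ g y z, Below E g κ → App E (j g) κ y → E z y → E z μ := fun g y z hg k hz =>
    (hμ z).2 ⟨y, (hB y).2 ⟨g, inI g hg, k⟩, hz⟩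
  have k1 : ∀ g y, Below E g κ → App E (j g) κ y → E y μ := fun g y hg k => by
    obtain ⟨g', a1, a2⟩ := h.raise hC (fun α y => ∀ t, App E g α t → E t y) fun α s hα hs => by
      obtain ⟨t, -, b⟩ := hg.1.tot hα
      obtain ⟨y, b1, b2⟩ := hs.2.1.lim.2 t (hg.2 α t b s hs.1 hs.2.1)
      exact ⟨y, b1, fun t' b' => hg.1.fn _ _ _ b b' ▸ b2⟩
    obtain ⟨y', -, b⟩ := h.val a1.1
    exact k3 g' y' y a1 b ((h.el.tr2 (fun _ g g' => ∀ α y, App E g' α y →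
      ∀ t, App E g α t → E t y) g g').1 a2 κ y' b y k)
  have ho : IsOrd E μ := ord_of_trans (fun z u hz hu =>
      let ⟨g, y, a, b, c⟩ := k2 z hz; k3 g y u a b ((jo.mem (lt g y a b)).tr c hu))
    fun z hz => let ⟨g, y, a, b, c⟩ := k2 z hz; (jo.mem (lt g y a b)).mem c
  refine ⟨μ, ⟨ho, fun z hz => let ⟨g, y, a, b, c⟩ := k2 z hz; ⟨y, k1 g y a b, c⟩⟩, ?_, k1, k2,
    fun l hl hκ H => ?_⟩
  · obtain ⟨g, a1, a2⟩ := h.raise hC (fun α y => E α y) fun α s hα hs => hs.2.1.lim.2 α hs.1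
    obtain ⟨y, -, b⟩ := h.val a1.1
    exact k3 g y κ a1 b ((h.el.tr1 (fun _ g => ∀ α y, App E g α y → E α y) g).1 a2 κ y b)
  · have hr : Rk E I l := Lim.pow hl.lim (hl.lim.rel hκ fun p hp =>
      let ⟨a, b, c1, c2, c3, _⟩ := (hD p).1 hp; ⟨a, b, c3, h.ord.rk c1, h.ord.rk c2⟩)
      fun g hg => (hP g).1 ((hI g).1 hg).1
    obtain ⟨b, b1, b2⟩ := hl.bd hr (fun g y => App E (j g) κ y) fun g hg =>
      let ⟨y, _, k⟩ := h.val ((hI g).1 hg).2.1.1; ⟨y, H g y ((hI g).1 hg).2.1 k, k⟩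
    refine (ho.le_of_sub (hl.1.mem b1) fun z hz => ?_).lt hl.1 b1
    obtain ⟨g, y, a1, a2, a3⟩ := k2 z hz
    obtain ⟨y', a4, a5⟩ := b2 g (inI g a1)
    exact (hl.1.mem b1).tr a4 (h.el.fn a1.1.fn _ _ _ a2 a5 ▸ a3)

theorem ElEmb.bad (hC : Choice E) {j : M → M} {W : Set M} {κ : M} (h : ElEmb E j W κ)
    (H : ∀ g, Below E g κ → Reach E j W κ g) : ∃ μ, Bad E κ μ ∧
      (∀ z, E z μ → ∃ g y, Below E g κ ∧ App E (j g) κ y ∧ E z y) ∧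
      ∀ g y, Below E g κ → App E (j g) κ y → E y μ := by
  obtain ⟨μ, hl, hκ, k1, k2, k3⟩ := h.sup hC
  have jo := h.el.ord h.ord
  have hV : VSub E W μ := vsub fun x hx => by
    obtain ⟨β, b1, b2⟩ := hl.rk hx
    obtain ⟨g, y, a1, a2, a3⟩ := k2 β b1
    obtain ⟨y', a4, a5⟩ := H g a1
    obtain rfl := h.el.fn a1.1.fn _ _ _ a2 a4
    exact a5.mem (b2.lt (hl.1.mem (k1 g y a1 a2)) a3)
  obtain ⟨U, u1, u2, -⟩ := h.wit hl hκ (hl.1.le_of_sub jo fun z hz =>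
    let ⟨g, y, a1, a2, a3⟩ := k2 z hz; jo.tr ((h.el.func a1.1).mem a2).2 a3) hV
  obtain ⟨i, W', h', hV', hg, u3⟩ := u1.emb hC
  have ag : ∀ g y, Below E g κ → App E (j g) κ y → App E (i g) κ y := fun g y a b =>
    u3 g κ y (hl.1.rk hκ) (hl.1.rk (k1 g y a b)) (u2 g κ y (hl.1.rk hκ) (hl.1.rk (k1 g y a b)) b)
  obtain ⟨m, m1, m2⟩ := (h'.el.tr1 (fun W κ => ∀ α, E α κ → ∃ s, E s κ ∧ Star E W α s) κ).1
    (fun α hα => h.star hC hα) κ h'.lt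
  obtain rfl : μ = m := by
    refine ext' E fun z => ⟨fun hz => ?_, fun hz => ?_⟩
    · obtain ⟨g, y, a1, a2, a3⟩ := k2 z hz
      exact m2.2.1.1.tr (h'.below a1 (ag g y a1 a2) m2.1 m2.2.1) a3
    obtain ⟨b, f, b1, b2, b3⟩ := hg z (h'.el.ord_mem (m2.2.1.1.mem hz))
    obtain ⟨β, b4, b5⟩ := hl.rk b1
    obtain ⟨g, y, a1, a2, a3⟩ := k2 β b4
    obtain ⟨g', c1, c2⟩ := h.raise hC (fun α y => ∀ t, App E g α t → ∀ u w, App E f u w →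
        Rk E u t → (∀ l, E α l → Inacc E Set.univ l → E w l) → E w y) fun α s hα hs => by
      obtain ⟨t, d0, d1⟩ := a1.1.tot hα
      obtain ⟨v, hv⟩ := ex_V (h.ord.mem d0)
      obtain ⟨x, hx⟩ := sep E v fun u => ∃ w, E w s ∧ App E f u w
      obtain ⟨y, d2, d3⟩ := (hs.2.1.ia hC).bd (Rk.intro hs.2.1.1 (a1.2 α t d1 s hs.1 hs.2.1)
        fun u hu => (hv u).1 ((hx u).1 hu).1) (fun u w => App E f u w) fun u hu => ((hx u).1 hu).2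
      refine ⟨y, d2, fun t' d4 u w d5 d6 d7 => ?_⟩
      obtain rfl := a1.1.fn _ _ _ d1 d4
      obtain ⟨w', d8, d9⟩ := d3 u ((hx u).2 ⟨(hv u).2 d6, w, d7 s hs.1 hs.2.1, d5⟩)
      exact b2 _ _ _ d9 d5 ▸ d8
    obtain ⟨y', -, c3⟩ := h.val c1.1
    refine hl.1.tr (k1 g' y' c1 c3) ((h'.el.tr3 (fun W g f g' => ∀ α y, App E g' α y →
      ∀ t, App E g α t → ∀ u w, App E f u w → Rk E u t →
        (∀ l ∈ W, E α l → Inacc E W l → E w l) → E w y) g f g').1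
      (fun α y d t d1 u w d2 d3 d4 => c2 α y d t d1 u w d2 d3 fun l => d4 l trivial)
      κ y' (ag g' y' c1 c3) y (ag g y a1 a2) b z b3 (b5.lt (hl.1.mem (k1 g y a1 a2)) a3)
      fun l _ d1 d2 => (m2.le d1 d2).sub d2.1 z hz)
  have hi := m2.2.1
  obtain ⟨e1, e2, e3⟩ := h'.extUlt hC m1 hi hV' hg
  refine ⟨μ, ⟨h.ia.card, hκ, ⟨e2, ?_, fun hR => ?_⟩, e3, i, W', e1, hV', hi.2.2.1⟩, k2, k1⟩
  · obtain ⟨w, w1, w2⟩ := hi.2.1
    exact ⟨w, w1, fun x hx => hl.1.tr w2 hx⟩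
  · refine no1 (k3 μ (Inacc.ia hC ⟨hl.1, hi.2.1, hR, fun α hα p _ hp => ?_⟩) hκ k1)
    obtain ⟨β, b1, f, -, b2⟩ := hi.2.2.2 α hα p (hV'.mem (Lim.pow hl (hl.1.rk hα)
      fun x => (hp x trivial).1)) fun x _ => hp x trivial
    exact ⟨β, b1, f, trivial, b2⟩

theorem ElEmb.cof (hC : Choice E) {j : M → M} {W : Set M} {κ μ : M} (h : ElEmb E j W κ)
    (ho : IsOrd E μ) (hκ : E κ μ) (k2 : ∀ z, E z μ → ∃ g y, Below E g κ ∧ App E (j g) κ y ∧ E z y)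
    (k1 : ∀ g y, Below E g κ → App E (j g) κ y → E y μ) :
    (∀ f, Func E f κ μ → ∃ b, E b μ ∧ ∀ x y, App E f x y → E y b) ∧
      ∃ p f, (∀ x, E x p ↔ Incl E x κ) ∧ Func E f p μ ∧
        ∀ b, E b μ → ∃ x y, App E f x y ∧ E b y := by
  have := h.el.fj
  constructor
  · intro f hf
    obtain ⟨G, -, G1, G2, G3⟩ := ac hC κ
      fun i g => Below E g κ ∧ ∀ z, App E f i z → ∃ y, App E (j g) κ y ∧ E z y
    obtain ⟨g, a1, a2⟩ := h.raise hC (fun α y => ∀ i, E i α → ∀ g, App E G i g →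
        ∀ t, App E g α t → E t y) fun α s hα hs => by
      obtain ⟨b, b1, b2⟩ := (hs.2.1.ia hC).bd (hs.2.1.1.rk hs.1)
        (fun i t => ∀ g, App E G i g → App E g α t) fun i hi => by
          by_cases k : ∃ g, App E G i g
          · obtain ⟨g, k⟩ := k
            obtain ⟨t, -, c⟩ := (G2 _ _ k).2.1.1.tot hα
            exact ⟨t, (G2 _ _ k).2.1.2 α t c s hs.1 hs.2.1, fun g' k' => G1 _ _ _ k k' ▸ c⟩
          · exact ⟨α, hs.1, fun g k' => (k ⟨g, k'⟩).elim⟩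
      refine ⟨b, b1, fun i hi g k t c => ?_⟩
      obtain ⟨t', c1, c2⟩ := b2 i hi
      exact (G2 _ _ k).2.1.1.fn _ _ _ (c2 g k) c ▸ c1
    obtain ⟨y, -, b⟩ := h.val a1.1
    refine ⟨y, k1 g y a1 b, fun i z k => ?_⟩
    have hi := (hf.mem k).1
    obtain ⟨g', c⟩ := G3 i hi (by
      obtain ⟨g', y', c1, c2, c3⟩ := k2 z (hf.mem k).2
      exact ⟨g', c1, fun z' k' => ⟨y', c2, hf.fn _ _ _ k k' ▸ c3⟩⟩)
    obtain ⟨y', c1, c2⟩ := (G2 _ _ c).2.2 z k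
    have c3 := h.el.app_iff.2 c
    rw [h.fix i hi] at c3
    exact (ho.mem (k1 g y a1 b)).tr ((h.el.tr2 (fun _ G g => ∀ α y, App E g α y → ∀ i, E i α →
      ∀ g, App E G i g → ∀ t, App E g α t → E t y) G g).1 a2 κ y b i hi _ c3 y' c1) c2
  · obtain ⟨K, hK⟩ := ex_V h.ord
    obtain ⟨c, c1, c2, -⟩ := coding hC h.ia hK
    obtain ⟨p, hp⟩ := ex_pow E κ
    let P : M → M → Prop := fun s g => Below E g κ ∧ ∀ q, E q g ↔ ∃ η, E η s ∧ App E c q η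
    have dP : D2 E P := fun _ _ _ _ => by simp only [P]; infer_instance
    have uP : ∀ s g g', P s g → P s g' → g = g' := fun s g g' a b =>
      ext' E fun q => (a.2 q).trans (b.2 q).symm
    obtain ⟨f, f1, f2⟩ := acF hC p μ (fun s y => ∀ g, P s g → App E (j g) κ y) fun s _ => by
      by_cases k : ∃ g, P s g
      · obtain ⟨g, k⟩ := k
        obtain ⟨y, -, b⟩ := h.val k.1.1
        exact ⟨y, k1 g y k.1 b, fun g' k' => uP _ _ _ k k' ▸ b⟩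
      · exact ⟨κ, hκ, fun g k' => (k ⟨g, k'⟩).elim⟩
    refine ⟨p, f, hp, f1, fun b hb => ?_⟩
    obtain ⟨g, y, a1, a2, a3⟩ := k2 b hb
    obtain ⟨s, hs⟩ := sep E κ fun η => ∃ q, E q g ∧ App E c q η
    obtain ⟨y', -, b1⟩ := f1.tot ((hp s).2 fun η k => ((hs η).1 k).1)
    refine ⟨s, y', b1, h.el.fn a1.1.fn _ _ _ a2 ((f2 _ _ b1).2.2 g ⟨a1, fun q => ⟨fun k => ?_,
      fun ⟨η, k, k'⟩ => let ⟨_, q', d1, d2⟩ := (hs η).1 k; c2 _ _ _ d2 k' ▸ d1⟩⟩) ▸ a3⟩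
    obtain ⟨u, w, d1, d2, d3⟩ := a1.1.1.1 q k
    obtain ⟨η, d4, d5⟩ := c1.tot ((hK q).2 (h.ia.lim.opair (h.ord.rk d1) (h.ord.rk d2) d3))
    exact ⟨η, (hs η).2 ⟨d4, q, k, d5⟩, d5⟩

theorem super_bad (hC : Choice E) {κ : M} (h : StarSuper E κ) : ∃ μ, Bad E κ μ :=
  let ⟨j, W, h, H⟩ := h; let ⟨μ, k, _⟩ := h.bad hC H; ⟨μ, k⟩

end Pool.Agent.Lib.MP_75a307_lc
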