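import Pool.Agent.Lib.MP_75a307_lc.Ult

/-! The fundamental theorem of ultrapowers and the ultrapower embedding. -/

set_option synthInstance.maxSize 100000
set_option linter.unusedVariables false
set_option linter.unusedSectionVars false

namespace Pool.Agent.Lib.MP_75a307_lc

open Pool.Agent.Lib.MP_1d770b_lc

universe u
variable {M : Type u} {E : M → M → Prop} [hZ : ZF E]

namespace Ext

variable {K N U : M} (h : Ext E Set.univ K N U)
include h

theorem los (hC : Choice E) {val : M → M}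
    (h1 : ∀ x y, Pt E K N x → Pt E K N y → (E (val x) (val y) ↔ Pr E U x y))
    (h2 : ∀ x y, Pt E K N x → Pt E K N y → (val x = val y ↔ Eqv E U x y)) (φ : Fm) :
    ∀ (c : M) (F : ℕ → M), E c N → (∀ k, Tot E K (F k)) →
      (SatW E {y | ∃ x, Pt E K N x ∧ val x = y} φ (fun k => val (pr E c (F k))) ↔
        AE E U fun σ => Sat E φ fun k => ap E (F k) (ap E σ c)) := by
  induction φ with
  | mem i j =>
    intro c F hc hF
    refine (h1 _ _ (Pt.mk' hc (hF i)) (Pt.mk' hc (hF j))).trans ?_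
    simp only [Pr, ev_pr]; rfl
  | eq i j =>
    intro c F hc hF
    refine (h2 _ _ (Pt.mk' hc (hF i)) (Pt.mk' hc (hF j))).trans ?_
    simp only [Eqv, ev_pr]; rfl
  | neg φ ih =>
    intro c F hc hF
    refine (not_congr (ih c F hc hF)).trans ⟨fun k => ?_, fun k k' => h.not_both k k' fun σ a b => a b⟩
    have := sat_dt (E := E) φ (fun k v => ap E (F k) (v 0)) fun _ => inferInstance
    exact (h.ult hc fun s => Sat E φ fun k => ap E (F k) s).resolve_left k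
  | and φ ψ ih1 ih2 =>
    intro c F hc hF
    exact (and_congr (ih1 c F hc hF) (ih2 c F hc hF)).trans
      ⟨fun k => h.and k.1 k.2, fun k => ⟨k.mono fun σ k => k.1, k.mono fun σ k => k.2⟩⟩
  | ex φ ih =>
    intro c F hc hF
    have e : ∀ (t : M → M) (g : M) (G : ℕ → M),
        (fun k => t (scons g G k)) = scons (t g) fun k => t (G k) := fun t g G => by
      funext k; cases k <;> rfl
    have hT : ∀ (g : M) (G : ℕ → M), Tot E K g → (∀ k, Tot E K (G k)) →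
        ∀ k, Tot E K (scons g G k) := fun g G a b k => by cases k; exacts [a, b _]
    constructor
    · rintro ⟨_, ⟨_, ⟨b, g, rfl, hb, hg⟩, rfl⟩, k⟩
      obtain ⟨hp, q⟩ := h.pair hc hb
      choose F' a1 a2 using fun k => lam hC K fun s => ap E (F k) (p1 E s)
      obtain ⟨g', b1, b2⟩ := lam hC K fun s => ap E g (p2 E s)
      have e1 : val (pr E b g) = val (pr E (pr E c b) g') :=
        (h2 _ _ (Pt.mk' hb hg) (Pt.mk' hp b1)).2 (q.mono fun σ q => by
          rw [ev_pr, ev_pr, b2 _ q.1, q.2.2])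
      have e2 : ∀ k, val (pr E c (F k)) = val (pr E (pr E c b) (F' k)) := fun k =>
        (h2 _ _ (Pt.mk' hc (hF k)) (Pt.mk' hp (a1 k))).2 (q.mono fun σ q => by
          rw [ev_pr, ev_pr, a2 _ _ q.1, q.2.1])
      rw [e1, funext e2, ← e (fun g => val (pr E (pr E c b) g)), ih _ _ hp (hT _ _ b1 a1)] at k
      refine (h.and k q).mono fun σ ⟨k, q⟩ => ⟨ap E g' (ap E σ (pr E c b)), ?_⟩
      rw [e (fun g => ap E g (ap E σ (pr E c b)))] at k
      simpa only [a2 _ _ q.1, q.2.1] using k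
    · intro k
      have := sat_dt (E := E) φ
        (fun k => match k with | 0 => fun v => v 1 | k + 1 => fun v => ap E (F k) (v 0))
        fun k => by cases k <;> infer_instance
      have hd : Df E fun v => Sat E φ (scons (v 1) fun k => ap E (F k) (v 0)) :=
        this.congr fun v => iff_of_eq (congrArg _ (by funext k; cases k <;> rfl))
      obtain ⟨g, g1, -, g2⟩ := skolem hC K fun s w => Sat E φ (scons w fun k => ap E (F k) s)
      refine ⟨val (pr E c g), ⟨_, Pt.mk' hc g1, rfl⟩, ?_⟩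
      rw [← e (fun g => val (pr E c g)), ih _ _ hc (hT _ _ g1 hF)]
      refine (h.and k (h.dom hc)).mono fun σ k => ?_
      rw [e (fun g => ap E g (ap E σ c))]
      exact g2 _ k.2.2 k.1

theorem ultrapower (hC : Choice E) {c : M} (hc : E c N) : ∃ j W, El E j W ∧
    (∀ a, E a N → a ∈ W ∧ E a (j K)) ∧ (∀ a, E a K → j a = a) ∧
    (∀ x ∈ W, ∃ a f, E a N ∧ Tot E K f ∧ App E (j f) a x) ∧
    ∀ R a b, E a N → E b N → (A2 E U a b fun s t => App E R s t) → App E (j R) a b := by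
  obtain ⟨val, dv, h1, h2, h3⟩ := h.col hC
  obtain ⟨cst, dc, hcst⟩ := ex_op (E := E) (fun x p => ∃ s, E s K ∧ IsOPair E p s x) fun x => by
    obtain ⟨t, ht⟩ := ex_upair E x x
    obtain ⟨r, hr, -⟩ := ex_rel E K t fun _ _ => True
    exact ⟨r, fun p ⟨s, k1, k2⟩ => (hr p).2 ⟨s, x, k1, (ht x).2 (Or.inl rfl), k2, trivial⟩⟩
  have c1 : ∀ x s y, App E (cst x) s y ↔ E s K ∧ y = x := fun x s y =>
    ⟨fun ⟨p, k1, k2⟩ => let ⟨s', k3, k4⟩ := (hcst _ _).1 k2
      ⟨(k1.inj k4).1 ▸ k3, (k1.inj k4).2⟩,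
      fun ⟨k1, k2⟩ => ⟨_, pr_spec _ _, (hcst _ _).2 ⟨s, k1, k2 ▸ pr_spec _ _⟩⟩⟩
  have c2 : ∀ x, Tot E K (cst x) := fun x =>
    ⟨fun s y y' k1 k2 => ((c1 _ _ _).1 k1).2.trans ((c1 _ _ _).1 k2).2.symm,
      fun s hs => ⟨x, (c1 _ _ _).2 ⟨hs, rfl⟩⟩⟩
  have c3 : ∀ x s, E s K → ap E (cst x) s = x := fun x s hs =>
    ap_eq (c2 x).1 ((c1 _ _ _).2 ⟨hs, rfl⟩)
  have c4 : ∀ a, E a N → ∀ x, val (pr E c (cst x)) = val (pr E a (cst x)) := fun a ha x =>
    (h2 _ _ (Pt.mk' hc (c2 x)) (Pt.mk' ha (c2 x))).2 ((h.and (h.dom hc) (h.dom ha)).mono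
      fun σ k => by rw [ev_pr, ev_pr, c3 _ _ k.1.2, c3 _ _ k.2.2])
  obtain ⟨i, i1, i2⟩ := lam hC K fun s => s
  have i3 : ∀ a, E a N → val (pr E a i) = a := by
    refine mem_ind E (fun a => E a N → val (pr E a i) = a) fun a ih ha => ext' E fun z => ⟨?_, ?_⟩
    · intro hz
      obtain ⟨_, ⟨b, g, rfl, hb, hg⟩, k, rfl⟩ := h3 _ (Pt.mk' ha i1) z hz
      obtain ⟨d, d1, d2⟩ := h.n2 ha hb hg ((h.and k (h.dom ha)).mono fun σ k => by
        have := k.1
        rwa [ev_pr, ev_pr, i2 _ k.2.2] at this)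
      have hd := (h.n1 ha d1).1
      rwa [(h2 _ _ (Pt.mk' hb hg) (Pt.mk' hd i1)).2 ((h.and d2 (h.dom hd)).mono fun σ k => by
        rw [ev_pr, ev_pr, i2 _ k.2.2, k.1]), ih d d1 hd]
    · intro hz
      obtain ⟨k1, k2⟩ := h.n1 ha hz
      rw [← ih z hz k1]
      exact (h1 _ _ (Pt.mk' k1 i1) (Pt.mk' ha i1)).2
        ((h.and k2 (h.and (h.dom k1) (h.dom ha))).mono fun σ k => by
          rw [ev_pr, ev_pr, i2 _ k.2.1.2, i2 _ k.2.2.2]; exact k.1)
  have hE : El E (fun x => val (pr E c (cst x))) {y | ∃ x, Pt E K N x ∧ val x = y} :=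
    { dj := fun s t _ _ => inferInstance
      dW := fun t _ => inferInstanceAs (Df E fun v => ∃ x, Pt E K N x ∧ val x = t v)
      trans := fun _ ⟨x, hx, e⟩ z hz => let ⟨u, k1, _, k2⟩ := h3 x hx z (e ▸ hz); ⟨u, k1, k2⟩
      maps := fun x => ⟨_, Pt.mk' hc (c2 x), rfl⟩
      elem := fun φ v => by
        rw [h.los hC h1 h2 φ c (fun k => cst (v k)) hc fun k => c2 _]
        exact ⟨fun k => (h.dom hc).mono fun σ q => by simpa only [c3 _ _ q.2] using k,
          fun k => let ⟨σ, k, q⟩ := h.ex (h.and k (h.dom hc)); by simpa only [c3 _ _ q.2] using k⟩ }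
  have key : ∀ R a f g, E a N → Tot E K f → Tot E K g →
      (AE E U fun σ => App E R (ap E f (ap E σ a)) (ap E g (ap E σ a))) →
      App E (val (pr E c (cst R))) (val (pr E a f)) (val (pr E a g)) := fun R a f g ha hf hg k => by
    obtain ⟨φ, hφ⟩ := (inferInstance : RD E (fun _ => True) fun _ v => App E (v 0) (v 1) (v 2)).out
    have hT : ∀ k, Tot E K ([cst R, f].getD k g) := fun k =>
      match k with | 0 => c2 R | 1 => hf | _ + 2 => hg
    rw [c4 a ha]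
    refine (hφ _ trivial hE.trans (fun k => val (pr E a ([cst R, f].getD k g)))
      fun k => ⟨_, Pt.mk' ha (hT k), rfl⟩).1 ((h.los hC h1 h2 φ a _ ha hT).2 ?_)
    refine (h.and k (h.dom ha)).mono fun σ k => (satW_univ _ _).1
      ((hφ _ trivial tr_univ _ fun _ => trivial).2 ?_)
    show App E (ap E (cst R) _) _ _
    rw [c3 _ _ k.2.2]; exact k.1
  refine ⟨_, _, hE, fun a ha => ⟨⟨_, Pt.mk' ha i1, i3 a ha⟩, ?_⟩, fun a ha => ?_,
    ?_, fun R a b ha hb k => ?_⟩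
  · rw [← i3 a ha]
    exact (h1 _ _ (Pt.mk' ha i1) (Pt.mk' hc (c2 K))).2 ((h.and (h.dom ha) (h.dom hc)).mono
      fun σ k => by rw [ev_pr, ev_pr, i2 _ k.1.2, c3 _ _ k.2.2]; exact k.1.2)
  · obtain ⟨k1, k2⟩ := h.fixK ha
    refine Eq.trans ((h2 _ _ (Pt.mk' hc (c2 a)) (Pt.mk' k1 i1)).2 ?_) (i3 a k1)
    exact (h.and k2 (h.dom hc)).mono fun σ k => by
      rw [ev_pr, ev_pr, c3 _ _ k.2.2, k.1, i2 _ ha]
  · rintro _ ⟨_, ⟨a, f, rfl, ha, hf⟩, rfl⟩
    refine ⟨a, f, ha, hf, ?_⟩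
    have := key f a i f ha i1 hf ((h.dom ha).mono fun σ k => by rw [i2 _ k.2]; exact hf.app k.2)
    rwa [i3 a ha] at this
  · obtain ⟨hp, q⟩ := h.pair ha hb
    obtain ⟨f, f1, f2⟩ := lam hC K (p1 E)
    obtain ⟨g, g1, g2⟩ := lam hC K (p2 E)
    have := key R _ f g hp f1 g1 ((h.and ((h.a2 ha hb).1 k) q).mono fun σ k => by
      rw [f2 _ k.2.1, g2 _ k.2.1, k.2.2.1, k.2.2.2]; exact k.1)
    rwa [(h2 _ _ (Pt.mk' hp f1) (Pt.mk' ha i1)).2 ((h.and q (h.dom ha)).mono fun σ k => by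
        rw [ev_pr, ev_pr, f2 _ k.1.1, k.1.2.1, i2 _ k.2.2]), i3 a ha,
      (h2 _ _ (Pt.mk' hp g1) (Pt.mk' hb i1)).2 ((h.and q (h.dom hb)).mono fun σ k => by
        rw [ev_pr, ev_pr, g2 _ k.1.1, k.1.2.2, i2 _ k.2.2]), i3 b hb] at this

end Ext

end Pool.Agent.Lib.MP_75a307_lc
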