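import Pool.Agent.Lib.MP_75a307_lc.DT

/-! Properties expressed by one formula in all transitive classes. -/

set_option synthInstance.maxSize 100000
set_option linter.unusedVariables false
set_option linter.unusedSectionVars false

namespace Pool.Agent.Lib.MP_75a307_lc

open Pool.Agent.Lib.MP_1d770b_lc

universe u
variable {M : Type u} {E : M → M → Prop}

def SatW (E : M → M → Prop) (W : Set M) : Fm → (ℕ → M) → Prop
  | .mem i j, v => E (v i) (v j)
  | .eq i j, v => v i = v j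
  | .neg φ, v => ¬ SatW E W φ v
  | .and φ ψ, v => SatW E W φ v ∧ SatW E W ψ v
  | .ex φ, v => ∃ a ∈ W, SatW E W φ (scons a v)

theorem satW_res {W : Set M} (φ : Fm) :
    ∀ v : ℕ → W, SatW E W φ (fun i => (v i).1) ↔ Sat (Res E W) φ v := by
  induction φ with
  | mem i k => intro v; rfl
  | eq i k => intro v; exact Subtype.val_inj
  | neg φ ih => intro v; simp only [SatW, Sat, ih]
  | and φ ψ ih1 ih2 => intro v; simp only [SatW, Sat, ih1, ih2]
  | ex φ ih =>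
    intro v
    have e : ∀ b : W, (fun i => (scons b v i).1) = scons b.1 fun i => (v i).1 := fun b => by
      funext i; cases i <;> rfl
    simp only [SatW, Sat, ← ih, e]
    exact ⟨fun ⟨a, ha, h⟩ => ⟨⟨a, ha⟩, h⟩, fun ⟨a, h⟩ => ⟨a.1, a.2, h⟩⟩

theorem satW_univ (φ : Fm) : ∀ v : ℕ → M, SatW E Set.univ φ v ↔ Sat E φ v := by
  induction φ with
  | mem i k => intro v; rfl
  | eq i k => intro v; rfl
  | neg φ ih => intro v; simp only [SatW, Sat, ih]
  | and φ ψ ih1 ih2 => intro v; simp only [SatW, Sat, ih1, ih2]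
  | ex φ ih => intro v; simp only [SatW, Sat, ih, Set.mem_univ, true_and]

def Tr (E : M → M → Prop) (W : Set M) : Prop := ∀ x ∈ W, ∀ y, E y x → y ∈ W

theorem tr_univ : Tr E Set.univ := fun _ _ _ _ => trivial

class RD (E : M → M → Prop) (G : Set M → Prop) (P : Set M → (ℕ → M) → Prop) : Prop where
  out : ∃ φ, ∀ W, G W → Tr E W → ∀ v : ℕ → M, (∀ i, v i ∈ W) → (SatW E W φ v ↔ P W v)

variable {G : Set M → Prop}

theorem RD.congr {P Q : Set M → (ℕ → M) → Prop} [h : RD E G P]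
    (e : ∀ W, G W → Tr E W → ∀ v : ℕ → M, (∀ i, v i ∈ W) → (P W v ↔ Q W v)) : RD E G Q := by
  obtain ⟨φ, hφ⟩ := h.out
  exact ⟨φ, fun W g t v hv => (hφ W g t v hv).trans (e W g t v hv)⟩

theorem RD.df {P : Set M → (ℕ → M) → Prop} (h : RD E G P) (g : G Set.univ) :
    Df E (P Set.univ) := by
  obtain ⟨φ, hφ⟩ := h.out
  exact ⟨φ, Sum.inl, fun v => ((hφ _ g tr_univ v fun _ => trivial).symm.trans (satW_univ φ v))⟩

instance RD.mem (i j : ℕ) : RD E G fun _ v => E (v i) (v j) :=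
  ⟨.mem i j, fun _ _ _ _ _ => Iff.rfl⟩
instance RD.eq (i j : ℕ) : RD E G fun _ v => v i = v j := ⟨.eq i j, fun _ _ _ _ _ => Iff.rfl⟩

section
variable {P Q : Set M → (ℕ → M) → Prop} {R : Set M → M → (ℕ → M) → Prop}
  {S : Set M → M → M → (ℕ → M) → Prop}

instance RD.not [h : RD E G P] : RD E G fun W v => ¬ P W v := by
  obtain ⟨φ, hφ⟩ := h.out
  exact ⟨.neg φ, fun W g t v hv => not_congr (hφ W g t v hv)⟩

instance RD.and [h : RD E G P] [k : RD E G Q] : RD E G fun W v => P W v ∧ Q W v := by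
  obtain ⟨φ, hφ⟩ := h.out
  obtain ⟨ψ, hψ⟩ := k.out
  exact ⟨.and φ ψ, fun W g t v hv => and_congr (hφ W g t v hv) (hψ W g t v hv)⟩

instance RD.ex [h : RD E G fun W v => R W (v 0) fun n => v (n + 1)] :
    RD E G fun W v => ∃ x ∈ W, R W x v := by
  obtain ⟨φ, hφ⟩ := h.out
  refine ⟨.ex φ, fun W g t v hv => exists_congr fun x => and_congr_right fun hx => ?_⟩
  exact hφ W g t (scons x v) (fun i => by cases i; exacts [hx, hv _])

instance RD.ne (i j : ℕ) : RD E G fun _ v => v i ≠ v j :=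
  inferInstanceAs (RD E G fun _ v => ¬ v i = v j)

instance RD.or [RD E G P] [RD E G Q] : RD E G fun W v => P W v ∨ Q W v :=
  RD.congr (P := fun W v => ¬ (¬ P W v ∧ ¬ Q W v)) fun _ _ _ _ _ => by tauto

instance RD.imp [RD E G P] [RD E G Q] : RD E G fun W v => P W v → Q W v :=
  RD.congr (P := fun W v => ¬ (P W v ∧ ¬ Q W v)) fun _ _ _ _ _ => by tauto

instance RD.iff [RD E G P] [RD E G Q] : RD E G fun W v => P W v ↔ Q W v :=
  RD.congr (P := fun W v => (P W v → Q W v) ∧ (Q W v → P W v)) fun _ _ _ _ _ => iff_def.symm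

instance RD.all [RD E G fun W v => R W (v 0) fun n => v (n + 1)] :
    RD E G fun W v => ∀ x ∈ W, R W x v :=
  RD.congr (P := fun W v => ¬ ∃ x ∈ W, ¬ R W x v) fun _ _ _ _ _ => by push Not; rfl

instance RD.ball (i : ℕ) [RD E G fun W v => R W (v 0) fun n => v (n + 1)] :
    RD E G fun W v => ∀ x, E x (v i) → R W x v :=
  RD.congr (P := fun W v => ∀ x ∈ W, E x (v i) → R W x v) fun _ _ t _ hv =>
    ⟨fun h x hx => h x (t _ (hv i) _ hx) hx, fun h x _ hx => h x hx⟩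

instance RD.bex (i : ℕ) [RD E G fun W v => R W (v 0) fun n => v (n + 1)] :
    RD E G fun W v => ∃ x, E x (v i) ∧ R W x v :=
  RD.congr (P := fun W v => ∃ x ∈ W, E x (v i) ∧ R W x v) fun _ _ t _ hv =>
    ⟨fun ⟨x, _, h⟩ => ⟨x, h⟩, fun ⟨x, h⟩ => ⟨x, t _ (hv i) _ h.1, h⟩⟩

instance RD.nonempty (i : ℕ) : RD E G fun W v => ∃ x, E x (v i) :=
  RD.congr (P := fun W v => ∃ x, E x (v i) ∧ x = x) fun _ _ t _ hv => by simp

instance RD.sub (i j : ℕ) : RD E G fun _ v => Sub E (v i) (v j) := by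
  unfold MP_1d770b_lc.Sub; infer_instance
instance RD.incl (i j : ℕ) : RD E G fun _ v => Incl E (v i) (v j) := by unfold Incl; infer_instance
instance RD.le (i j : ℕ) : RD E G fun _ v => Le E (v i) (v j) := by unfold Le; infer_instance

instance RD.upair (i j k : ℕ) : RD E G fun _ v => IsUPair E (v i) (v j) (v k) :=
  RD.congr (P := fun _ v => E (v j) (v i) ∧ E (v k) (v i) ∧ ∀ x, E x (v i) → x = v j ∨ x = v k)
    fun _ _ _ v _ => ⟨fun h x => ⟨h.2.2 x, fun e => e.elim (fun e => e ▸ h.1) fun e => e ▸ h.2.1⟩,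
      fun h => ⟨(h _).2 (Or.inl rfl), (h _).2 (Or.inr rfl), fun x => (h x).1⟩⟩

instance RD.suc (i j : ℕ) : RD E G fun _ v => IsSuc E (v i) (v j) :=
  RD.congr (P := fun _ v => Sub E (v j) (v i) ∧ E (v j) (v i) ∧
      ∀ x, E x (v i) → E x (v j) ∨ x = v j)
    fun _ _ _ v _ => ⟨fun h x => ⟨h.2.2 x, fun e => e.elim (h.1 x) fun e => e ▸ h.2.1⟩,
      fun h => ⟨fun x hx => h.of_mem hx, h.self, fun x => (h x).1⟩⟩

instance RD.opair (i j k : ℕ) : RD E G fun _ v => IsOPair E (v i) (v j) (v k) :=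
  RD.congr (P := fun _ v => ∃ s, E s (v i) ∧ ∃ t, E t (v i) ∧ IsUPair E s (v j) (v j) ∧
      IsUPair E t (v j) (v k) ∧ IsUPair E (v i) s t)
    fun _ _ _ v _ => ⟨fun ⟨s, _, t, _, h⟩ => ⟨s, t, h⟩, fun ⟨s, t, h⟩ =>
      ⟨s, (h.2.2 s).2 (Or.inl rfl), t, (h.2.2 t).2 (Or.inr rfl), h⟩⟩

instance RD.app (i j k : ℕ) : RD E G fun _ v => App E (v i) (v j) (v k) :=
  RD.congr (P := fun _ v => ∃ p, E p (v i) ∧ IsOPair E p (v j) (v k))
    fun _ _ _ v _ => exists_congr fun _ => and_comm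

theorem Tr.opair {W : Set M} (t : Tr E W) {p a b : M} (hp : p ∈ W) (h : IsOPair E p a b) :
    a ∈ W ∧ b ∈ W := by
  obtain ⟨s, u, -, hu, h⟩ := h
  have := t _ hp u ((h u).2 (Or.inr rfl))
  exact ⟨t _ this _ ((hu a).2 (Or.inl rfl)), t _ this _ ((hu b).2 (Or.inr rfl))⟩

theorem Tr.app {W : Set M} (t : Tr E W) {f a b : M} (hf : f ∈ W) (h : App E f a b) :
    a ∈ W ∧ b ∈ W :=
  let ⟨p, h1, h2⟩ := h; t.opair (t _ hf _ h2) h1

instance RD.exval (i k : ℕ) [RD E G fun W v => R W (v 0) fun n => v (n + 1)] :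
    RD E G fun W v => ∃ y, App E (v k) (v i) y ∧ R W y v :=
  RD.congr (P := fun W v => ∃ y ∈ W, App E (v k) (v i) y ∧ R W y v) fun _ _ t _ hv =>
    ⟨fun ⟨x, _, h⟩ => ⟨x, h⟩, fun ⟨x, h⟩ => ⟨x, (t.app (hv k) h.1).2, h⟩⟩

instance RD.dom (i k : ℕ) : RD E G fun W v => ∃ y, App E (v k) (v i) y :=
  RD.congr (P := fun W v => ∃ y, App E (v k) (v i) y ∧ y = y) fun _ _ t _ hv => by simp

instance RD.exinv (i k : ℕ) [RD E G fun W v => R W (v 0) fun n => v (n + 1)] :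
    RD E G fun W v => ∃ x, App E (v k) x (v i) ∧ R W x v :=
  RD.congr (P := fun W v => ∃ x ∈ W, App E (v k) x (v i) ∧ R W x v) fun _ _ t _ hv =>
    ⟨fun ⟨x, _, h⟩ => ⟨x, h⟩, fun ⟨x, h⟩ => ⟨x, (t.app (hv k) h.1).1, h⟩⟩

instance RD.ran (i k : ℕ) : RD E G fun W v => ∃ x, App E (v k) x (v i) :=
  RD.congr (P := fun W v => ∃ x, App E (v k) x (v i) ∧ x = x) fun _ _ t _ hv => by simp

instance RD.allval (i k : ℕ) [RD E G fun W v => R W (v 0) fun n => v (n + 1)] :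
    RD E G fun W v => ∀ y, App E (v k) (v i) y → R W y v :=
  RD.congr (P := fun W v => ∀ y ∈ W, App E (v k) (v i) y → R W y v) fun _ _ t _ hv =>
    ⟨fun h x hx => h x (t.app (hv k) hx).2 hx, fun h x _ hx => h x hx⟩

instance RD.allpair (k : ℕ) [RD E G fun W v => S W (v 1) (v 0) fun n => v (n + 1 + 1)] :
    RD E G fun W v => ∀ x y, App E (v k) x y → S W x y v :=
  RD.congr (P := fun W v => ∀ x ∈ W, ∀ y, App E (v k) x y → S W x y v) fun _ _ t _ hv =>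
    ⟨fun h x y hx => h x (t.app (hv k) hx).1 y hx, fun h x _ y hx => h x y hx⟩

instance RD.expair (k : ℕ) [RD E G fun W v => S W (v 1) (v 0) fun n => v (n + 1 + 1)] :
    RD E G fun W v => ∃ x y, IsOPair E (v k) x y ∧ S W x y v :=
  RD.congr (P := fun W v => ∃ x ∈ W, ∃ y ∈ W, IsOPair E (v k) x y ∧ S W x y v) fun _ _ t v hv =>
    ⟨fun ⟨x, _, y, _, h⟩ => ⟨x, y, h⟩, fun ⟨x, y, h⟩ =>
      ⟨x, (t.opair (hv k) h.1).1, y, (t.opair (hv k) h.1).2, h⟩⟩
end

instance RD.ord (i : ℕ) : RD E G fun _ v => IsOrd E (v i) :=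
  RD.congr (P := fun _ v => (∀ x, E x (v i) → ∀ y, E y x → E y (v i)) ∧
      ∀ x, E x (v i) → ∀ y, E y (v i) → (E x y ∨ x = y ∨ E y x)) fun _ _ _ v _ =>
    ⟨fun h => ⟨fun x y a b => h.1 x a y b, fun x y a b => h.2 x a y b⟩,
      fun h => ⟨fun x a y b => h.1 x y a b, fun x a y b => h.2 x y a b⟩⟩

instance RD.lim (i : ℕ) : RD E G fun _ v => Lim E (v i) := by unfold Lim; infer_instance

instance RD.fn (i : ℕ) : RD E G fun _ v => Fn E (v i) :=
  RD.congr (P := fun _ v => ∀ x y, App E (v i) x y → ∀ z, App E (v i) x z → y = z) fun _ _ _ v _ =>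
    ⟨fun h x y z a b => h x y a z b, fun h x y a z b => h x y z a b⟩

instance RD.oneOne (i : ℕ) : RD E G fun _ v => OneOne E (v i) :=
  RD.congr (P := fun _ v => ∀ x y, App E (v i) x y → ∀ x' y', App E (v i) x' y' → y = y' → x = x')
    fun _ _ _ v _ =>
    ⟨fun h x x' y a b => h x y a x' y b rfl, fun h x y a x' y' b e => h x x' y a (e ▸ b)⟩

instance RD.func (i j k : ℕ) : RD E G fun _ v => Func E (v i) (v j) (v k) :=
  RD.congr (P := fun _ v => ((∀ p, E p (v i) → ∃ a b, IsOPair E p a b ∧ E a (v j) ∧ E b (v k)) ∧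
      Fn E (v i)) ∧ ∀ x, E x (v j) → ∃ y, App E (v i) x y) fun _ _ _ v _ =>
    and_congr_left fun _ => and_congr_left fun _ => forall₂_congr fun _ _ =>
      exists₂_congr fun _ _ => by tauto

instance RD.reg (i : ℕ) : RD E G fun W v => Reg E W (v i) := by unfold Reg; infer_instance

/-- rank certificates -/
def RkW (E : M → M → Prop) (W : Set M) (x α : M) : Prop :=
  IsOrd E α ∧ ∃ r ∈ W, (∀ y b, App E r y b → ∃ c, E c b ∧ ∀ z, E z y → App E r z c) ∧ App E r x α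

instance RD.rkW (i j : ℕ) : RD E G fun W v => RkW E W (v i) (v j) := by unfold RkW; infer_instance

def Good (E : M → M → Prop) (W : Set M) : Prop :=
  D1 E (fun x => x ∈ W) ∧ ∀ x ∈ W, ∀ α ∈ W, (∀ z, E z x → RkW E W z α) → IsOrd E α →
    ∀ β ∈ W, IsOrd E β → E α β → RkW E W x β

variable [hZ : ZF E]

theorem RkW.rk {W : Set M} {x α : M} (h : RkW E W x α) : Rk E x α := by
  obtain ⟨ho, r, -, hr, hx⟩ := h
  refine ord_ind (fun α => ∀ x, App E r x α → Rk E x α) ?_ α ho x hx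
  intro α ho ih x hx
  obtain ⟨c, hc, h⟩ := hr x α hx
  exact Rk.intro ho hc fun z hz => ih c hc z (h z hz)

theorem rkW_univ {x α : M} (h : Rk E x α) : RkW E Set.univ x α := by
  obtain ⟨v, hv⟩ := ex_V h.ord
  obtain ⟨s, hs⟩ := ex_suc E α
  obtain ⟨r, -, hr⟩ := ex_rel E v s (fun y b => Rk E y b)
  refine ⟨h.ord, r, trivial, fun y b hy => ?_, (hr _ _).2 ⟨(hv x).2 h, hs.self, h⟩⟩
  obtain ⟨h1, h2, h3⟩ := (hr _ _).1 hy
  obtain ⟨c, hc, H⟩ := h3.elim
  exact ⟨c, hc, fun z hz => (hr _ _).2 ⟨(hv z).2 (((hv y).1 h1).mem hz),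
    (hs.ord h.ord).tr h2 hc, H z hz⟩⟩

theorem good_univ : Good E Set.univ :=
  ⟨fun _ _ => inferInstance, fun x _ α _ h _ β _ hβ hα =>
    rkW_univ (Rk.intro hβ hα fun z hz => (h z hz).rk)⟩

instance RD.rk (i j : ℕ) : RD E (Good E) fun _ v => Rk E (v i) (v j) :=
  RD.congr (P := fun W v => RkW E W (v i) (v j)) fun W g t v hv => by
    refine ⟨RkW.rk, fun h => ?_⟩
    have := g.1
    have hd : Df E fun w => w 0 ∈ W → ∀ x ∈ W, Rk E x (w 0) → RkW E W x (w 0) := by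
      unfold RkW; infer_instance
    refine ord_ind (fun α => α ∈ W → ∀ x ∈ W, Rk E x α → RkW E W x α) ?_ _ h.ord (hv j) _ (hv i) h
    intro α ho ih hα x hx h
    obtain ⟨c, hc, H⟩ := h.elim
    have hcW := t _ hα _ hc
    exact g.2 x hx c hcW (fun z hz => ih c hc hcW z (t _ hx _ hz) (H z hz)) (ho.mem hc) α hα ho hc

theorem omega_lt {l : M} (hl : IsOrd E l) :
    (∃ w, IsOmega E w ∧ E w l) ↔ ∃ y, E y l ∧ Lim E y ∧ ∃ z, E z y := by
  constructor
  · rintro ⟨w, hw, h⟩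
    obtain ⟨e, he⟩ := ex_emp E
    exact ⟨w, h, hw.lim, e, hw.emp he⟩
  · rintro ⟨y, hy, h, z, hz⟩
    obtain ⟨w, hw⟩ := ex_omega E
    refine ⟨w, hw, (hw.ord.le_of_sub h.1 ?_).lt hl hy⟩
    refine hw.ind (fun n => E n y) (fun e he => ?_) fun n s _ hs hn => h.suc hn hs
    exact (he.ord.le_of_sub (h.1.mem hz) fun x hx => (he x hx).elim).lt h.1 hz

instance RD.inacc (i : ℕ) : RD E G fun W v => Inacc E W (v i) :=
  RD.congr (P := fun W v => IsOrd E (v i) ∧ (∃ y, E y (v i) ∧ Lim E y ∧ ∃ z, E z y) ∧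
    Reg E W (v i) ∧ ∀ α, E α (v i) → ∀ p ∈ W, (∀ x ∈ W, E x p ↔ Incl E x α) →
      ∃ β, E β (v i) ∧ ∃ f ∈ W, Func E f p β ∧ OneOne E f) fun _ _ _ v _ =>
    and_congr_right fun h => and_congr_left fun _ => (omega_lt h).symm

instance RD.star (i j : ℕ) : RD E G fun W v => Star E W (v i) (v j) := by
  unfold Star; infer_instance

end Pool.Agent.Lib.MP_75a307_lc
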