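import Pool.Agent.Lib.MP_75a307_lc.Ext

/-! The ultrapower of the universe by an extender and its transitive collapse. -/

set_option synthInstance.maxSize 100000
set_option linter.unusedVariables false
set_option linter.unusedSectionVars false

namespace Pool.Agent.Lib.MP_75a307_lc

open Pool.Agent.Lib.MP_1d770b_lc

universe u
variable {M : Type u} {E : M → M → Prop} [hZ : ZF E]

variable (E) in
def Pt (K N x : M) : Prop := ∃ a f, x = pr E a f ∧ E a N ∧ Tot E K f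

variable (E) in
noncomputable abbrev ev (x σ : M) : M := ap E (p2 E x) (ap E σ (p1 E x))

variable (E) in
def Pr (U u x : M) : Prop := AE E U fun σ => E (ev E u σ) (ev E x σ)

variable (E) in
def Eqv (U u x : M) : Prop := AE E U fun σ => ev E u σ = ev E x σ

variable (E) in
def R0 (K N U u x : M) : Prop := Pt E K N u ∧ Pr E U u x ∧
  ∀ β, Lim E β → Rk E K β → Rk E N β → Rk E x β → Rk E u β

section
variable (K N U : M) (a b : (ℕ → M) → M) [IsT a] [IsT b]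
instance : Df E fun v => Pt E K N (a v) := by unfold Pt; infer_instance
instance : Df E fun v => Pr E U (a v) (b v) := by unfold Pr; infer_instance
instance : Df E fun v => Eqv E U (a v) (b v) := by unfold Eqv; infer_instance
instance : Df E fun v => R0 E K N U (a v) (b v) := by unfold R0; infer_instance
end

theorem ex_lim (a b c : M) : ∃ β, Lim E β ∧ Rk E a β ∧ Rk E b β ∧ Rk E c β := by
  obtain ⟨α, h1⟩ := ex_rk E a
  obtain ⟨β, h2⟩ := ex_rk E b
  obtain ⟨γ, h3⟩ := ex_rk E c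
  obtain ⟨δ, h4, h5, h6⟩ := ord_bound2 h1.ord h2.ord
  obtain ⟨ε, h7, h8, h9⟩ := ord_bound2 h4 h3.ord
  obtain ⟨l, k1, k2, -⟩ := clos E (fun _ _ => True) (fun α hα => ⟨α, hα, trivial⟩) ε h7
  exact ⟨l, k1, h1.lt k1.1 (k1.1.tr k2 (h7.tr h8 h5)), h2.lt k1.1 (k1.1.tr k2 (h7.tr h8 h6)),
    h3.lt k1.1 (k1.1.tr k2 h9)⟩

theorem Pt.mk' {K N a f : M} (ha : E a N) (hf : Tot E K f) : Pt E K N (pr E a f) :=
  ⟨a, f, rfl, ha, hf⟩

theorem ev_pr (a f σ : M) : ev E (pr E a f) σ = ap E f (ap E σ a) := by simp [ev]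

namespace Ext

variable {K N U : M} (h : Ext E Set.univ K N U)
include h

theorem dec {x y : M} (hx : Pt E K N x) (hy : Pt E K N y) (S : M → M → Prop) (hS : D2 E S) :
    (AE E U fun σ => S (ev E x σ) (ev E y σ)) ∨ AE E U fun σ => ¬ S (ev E x σ) (ev E y σ) := by
  obtain ⟨a, f, rfl, ha, hf⟩ := hx
  obtain ⟨b, g, rfl, hb, hg⟩ := hy
  obtain ⟨hp, k⟩ := h.pair ha hb
  have := dt2 hS
  simp only [ev_pr]
  refine (h.ult hp fun s => S (ap E f (p1 E s)) (ap E g (p2 E s))).imp (fun k' => ?_) fun k' => ?_ <;>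
  exact (h.and k k').mono fun σ ⟨⟨_, e1, e2⟩, e3⟩ => by rwa [e1, e2] at e3

theorem mkc (hC : Choice E) {x y : M} (hx : Pt E K N x) (hy : Pt E K N y)
    (P : M → M → M → Prop) (hP : D3 E P) :
    ∃ z, Pt E K N z ∧ (AE E U fun σ => (∃ w, P (ev E x σ) (ev E y σ) w) →
        P (ev E x σ) (ev E y σ) (ev E z σ)) ∧
      ((∀ u v w, P u v w → E w v) →
        ∀ β, Lim E β → Rk E K β → Rk E N β → Rk E y β → Rk E z β) := by
  obtain ⟨a, f, rfl, ha, hf⟩ := hx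
  obtain ⟨b, g, rfl, hb, hg⟩ := hy
  obtain ⟨hp, k⟩ := h.pair ha hb
  have := dt3 hP
  obtain ⟨c, c1, c2, c3⟩ := skolem hC K fun s w => P (ap E f (p1 E s)) (ap E g (p2 E s)) w
  refine ⟨_, Pt.mk' hp c1, k.mono fun σ ⟨e0, e1, e2⟩ => ?_, fun H β hl hK hN hy => ?_⟩
  · simp only [ev_pr]
    have := c3 _ e0
    rwa [e1, e2] at this
  · refine hl.opair (hN.mem hp) ?_ (pr_spec _ _)
    obtain ⟨γ, hγ, k1, k2⟩ := hl.rk2 hK hy
    refine hl.rel hγ fun p hp => ?_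
    obtain ⟨s, w, a1, a2, a3⟩ := c2 p hp
    refine ⟨s, w, a1, k1.mem a2, a3.elim (fun a3 => ?_) fun a3 => a3 ▸ k1.mem a2⟩
    obtain ⟨y', b1, b2⟩ := (ap_spec _ _ _).1 (H _ _ _ a3)
    obtain ⟨t1, t2, -, d2, d3⟩ := pr_spec (E := E) b g
    exact ((((k2.mem ((d3 t2).2 (Or.inr rfl))).mem ((d2 g).2 (Or.inr rfl))).app b1).2).mem b2

theorem shrink (hC : Choice E) {u x : M} (hu : Pt E K N u) (hx : Pt E K N x) (k : Pr E U u x) :
    ∃ u', R0 E K N U u' x ∧ Eqv E U u u' := by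
  obtain ⟨z, h1, h2, h3⟩ := h.mkc hC hu hx (fun u v w => w = u ∧ E u v)
    (fun _ _ _ _ _ _ => inferInstance)
  have := (h.and k h2).mono fun σ k => (k.2 ⟨_, rfl, k.1⟩)
  exact ⟨z, ⟨h1, this.mono fun σ k => k.1 ▸ k.2, h3 fun u v w k => k.1 ▸ k.2⟩,
    this.mono fun σ k => k.1.symm⟩

theorem ind0 (P : M → Prop) [hP : Df E fun v => P (v 0)]
    (H : ∀ x, Pt E K N x → (∀ u, R0 E K N U u x → P u) → P x) {x : M} (hx : Pt E K N x) : P x := by
  have := hP.d1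
  by_contra hn
  obtain ⟨β, hl, hK, hN, hβ⟩ := ex_lim (E := E) K N x
  obtain ⟨v, hv⟩ := ex_V hl.1
  obtain ⟨S, hS⟩ := sep E v fun u => Pt E K N u ∧ ¬ P u
  obtain ⟨m, hm, k⟩ := h.2.2.2.2.2.2.2.2 S trivial ⟨x, (hS x).2 ⟨(hv x).2 hβ, hx, hn⟩⟩
  obtain ⟨m1, m2, m3⟩ := (hS m).1 hm
  refine m3 (H m m2 fun u ⟨u1, u2, u3⟩ => by_contra fun hu =>
    k u ((hS u).2 ⟨(hv u).2 (u3 β hl hK hN ((hv m).1 m1)), u1, hu⟩) ?_)
  obtain ⟨a, f, rfl, ha, hf⟩ := m2
  obtain ⟨b, g, rfl, hb, hg⟩ := u1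
  refine ⟨b, g, pr_spec _ _, a, f, pr_spec _ _, hb, ha, hg.1, hf.1, (h.a2 hb ha).2 ?_⟩
  refine (h.and u2 (h.and (h.dom hb) (h.dom ha))).mono fun σ ⟨e1, e2, e3⟩ =>
    ⟨_, hg.app e2.2, _, hf.app e3.2, ?_⟩
  simpa only [ev_pr] using e1

theorem col0 : ∃ val : M → M, F1 E val ∧ ∀ x, Pt E K N x → ∀ z, E z (val x) ↔
    ∃ u, R0 E K N U u x ∧ val u = z := by
  classical
  let R : M → M → Prop := fun u x => ∀ C, (∀ w, R0 E K N U w x → E w C) →
    (∀ v w, E v C → R0 E K N U w v → E w C) → E u C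
  have dR : D2 E R := fun _ _ _ _ => by simp only [R]; infer_instance
  have hC : ∀ x, ∃ C, (∀ w, R0 E K N U w x → E w C) ∧ (∀ v w, E v C → R0 E K N U w v → E w C) ∧
      ∀ w, E w C → Pt E K N w := fun x => by
    obtain ⟨β, hl, hK, hN, hβ⟩ := ex_lim (E := E) K N x
    obtain ⟨v, hv⟩ := ex_V hl.1
    obtain ⟨C, hC⟩ := sep E v fun u => Pt E K N u
    exact ⟨C, fun w k => (hC w).2 ⟨(hv w).2 (k.2.2 β hl hK hN hβ), k.1⟩, fun t w ht k =>
      (hC w).2 ⟨(hv w).2 (k.2.2 β hl hK hN ((hv t).1 ((hC t).1 ht).1)), k.1⟩,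
      fun w k => ((hC w).1 k).2⟩
  have r0 : ∀ u x, R0 E K N U u x → R u x := fun u x k C h1 _ => h1 u k
  have tr : ∀ x x' x'', R x' x → R x'' x' → R x'' x := fun x x' x'' k1 k2 C h1 h2 =>
    k2 C (fun w k => h2 x' w (k1 C h1 h2) k) h2
  let S : M → M → M → Prop := fun f x y => ∀ z, E z y ↔ ∃ u, R0 E K N U u x ∧ App E f u z
  have hr : RecOK E (Pt E K N) R S :=
    { dA := fun _ _ => inferInstance
      dR := dR
      sub := fun x x' _ k => let ⟨C, h1, h2, h3⟩ := hC x; h3 _ (k C h1 h2)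
      trans := fun x x' x'' _ => tr x x' x''
      setlike := fun x _ => let ⟨C, h1, h2, _⟩ := hC x; ⟨C, fun x' k => k C h1 h2⟩
      wf := fun P dP H x hx => by
        refine H x hx (h.ind0 (fun x => ∀ x', R x' x → P x') (fun x hx ih x' k => ?_) hx)
        obtain ⟨C, h1, h2, h3⟩ := hC x
        obtain ⟨D, hD⟩ := sep E C fun u => P u ∧ ∀ x', R x' u → P x'
        refine ((hD x').1 (k D (fun w k => (hD w).2 ⟨h1 w k, H w k.1 (ih w k), ih w k⟩)
          fun v w hv k => ?_)).2.1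
        obtain ⟨a1, a2, a3⟩ := (hD v).1 hv
        exact (hD w).2 ⟨h2 v w a1 k, a3 w (r0 _ _ k), fun t k' => a3 t (tr _ _ _ (r0 _ _ k) k')⟩
      dS := fun _ _ _ _ _ _ => by simp only [S]; infer_instance
      inv := fun f g x y _ H hS z => (hS z).trans
        (exists_congr fun u => and_congr_right fun k => H u (r0 _ _ k) z)
      ex := fun f x _ _ => by
        obtain ⟨d, hd⟩ := ex_fld E f
        obtain ⟨y, hy⟩ := sep E d fun z => ∃ u, R0 E K N U u x ∧ App E f u z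
        exact ⟨y, fun z => (hy z).trans ⟨fun k => k.2, fun ⟨u, k1, k2⟩ => ⟨(hd _ _ k2).2, u, k1, k2⟩⟩⟩
      uniq := fun f x y y' _ _ h1 h2 => ext' E fun z => (h1 z).trans (h2 z).symm }
  have dH := hr.dRec
  set H := Rec E (Pt E K N) R S
  have : ∀ x, ∃ y, H x y ∨ ((¬ ∃ y', H x y') ∧ x = y) := fun x => by
    by_cases k : ∃ y, H x y
    · exact let ⟨y, k⟩ := k; ⟨y, Or.inl k⟩
    · exact ⟨x, Or.inr ⟨k, rfl⟩⟩
  choose val hval using this
  have hv : ∀ x y, H x y → val x = y := fun x y k =>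
    (hval x).elim (fun k' => hr.fn k' k) fun k' => (k'.1 ⟨y, k⟩).elim
  refine ⟨val, f1 fun s t _ _ => Df.congr
    (P := fun v => H (s v) (t v) ∨ ((¬ ∃ y', H (s v) y') ∧ s v = t v)) inferInstance fun v =>
      ⟨fun k => k.elim (hv _ _) fun k => (hval _).elim (fun k' => (k.1 ⟨_, k'⟩).elim)
        fun k' => k'.2.symm.trans k.2, fun k => k ▸ hval _⟩, fun x hx z => ?_⟩
  obtain ⟨y, hy⟩ := hr.total hx
  obtain ⟨f, hf, hS⟩ := hr.elim hy
  rw [hv x y hy, hS z]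
  refine exists_congr fun u => and_congr_right fun k => (hf u (r0 _ _ k) z).trans
    ⟨hv _ _, fun e => ?_⟩
  obtain ⟨y', hy'⟩ := hr.total k.1
  rwa [← e, hv _ _ hy']

theorem col (hC : Choice E) : ∃ val : M → M, F1 E val ∧
    (∀ x y, Pt E K N x → Pt E K N y → (E (val x) (val y) ↔ Pr E U x y)) ∧
    (∀ x y, Pt E K N x → Pt E K N y → (val x = val y ↔ Eqv E U x y)) ∧
    ∀ x, Pt E K N x → ∀ z, E z (val x) → ∃ u, Pt E K N u ∧ Pr E U u x ∧ val u = z := by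
  obtain ⟨val, dv, hv⟩ := h.col0
  have e1 : ∀ x, Pt E K N x → ∀ y, Pt E K N y → Eqv E U x y → val x = val y := fun x hx => by
    refine h.ind0 (fun x => ∀ y, Pt E K N y → Eqv E U x y → val x = val y) ?_ hx
    intro x hx ih y hy e
    refine ext' E fun z => ?_
    rw [hv x hx, hv y hy]
    constructor
    · rintro ⟨u, k, rfl⟩
      obtain ⟨u', k1, k2⟩ := h.shrink hC k.1 hy ((h.and k.2.1 e).mono fun σ k => k.2 ▸ k.1)
      exact ⟨u', k1, (ih u k u' k1.1 k2).symm⟩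
    · rintro ⟨u, k, rfl⟩
      obtain ⟨u', k1, k2⟩ := h.shrink hC k.1 hx ((h.and k.2.1 e).mono fun σ k => k.2.symm ▸ k.1)
      exact ⟨u', k1, ih u' k1 u k.1 (k2.mono fun σ k => k.symm)⟩
  have e2 : ∀ z x y, Pt E K N x → Pt E K N y → val x = z → val y = z → Eqv E U x y := by
    refine mem_ind E (fun z => ∀ x y, Pt E K N x → Pt E K N y → val x = z → val y = z →
      Eqv E U x y) fun z ih => ?_
    have half : ∀ x y, Pt E K N x → Pt E K N y → val x = z → val y = z →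
        AE E U fun σ => Sub E (ev E x σ) (ev E y σ) := fun x y hx hy k1 k2 => by
      refine (h.dec hx hy (Sub E) fun _ _ _ _ => inferInstance).resolve_right fun k => ?_
      obtain ⟨w, w1, w2, -⟩ := h.mkc hC hx hy (fun u v w => E w u ∧ ¬ E w v)
        (fun _ _ _ _ _ _ => inferInstance)
      have w3 := (h.and k w2).mono fun σ k => k.2 (by
        by_contra hn
        exact k.1 fun t ht => by_contra fun ht' => hn ⟨t, ht, ht'⟩)
      obtain ⟨w', a1, a2⟩ := h.shrink hC w1 hx (w3.mono fun σ k => k.1)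
      have hz : E (val w') z := k1 ▸ (hv x hx _).2 ⟨w', a1, rfl⟩
      obtain ⟨w'', b1, b2⟩ := (hv y hy _).1 (k2.symm ▸ hz)
      exact h.not_both w3 (h.and a2 (h.and (ih _ hz w' w'' a1.1 b1.1 rfl b2) b1.2.1))
        fun σ k ⟨c1, c2, c3⟩ => k.2 (by rw [c1, c2]; exact c3)
    intro x y hx hy k1 k2
    exact (h.and (half x y hx hy k1 k2) (half y x hy hx k2 k1)).mono fun σ k =>
      ext' E fun t => ⟨k.1 t, k.2 t⟩
  refine ⟨val, dv, fun x y hx hy => ⟨fun k => ?_, fun k => ?_⟩,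
    fun x y hx hy => ⟨fun k => e2 _ x y hx hy k rfl, e1 x hx y hy⟩, fun x hx z k => ?_⟩
  · obtain ⟨u, k1, k2⟩ := (hv y hy _).1 k
    exact (h.and (e2 _ u x k1.1 hx k2 rfl) k1.2.1).mono fun σ k => k.1 ▸ k.2
  · obtain ⟨u, k1, k2⟩ := h.shrink hC hx hy k
    exact (hv y hy _).2 ⟨u, k1, (e1 x hx u k1.1 k2).symm⟩
  · obtain ⟨u, k1, k2⟩ := (hv x hx _).1 k
    exact ⟨u, k1.1, k1.2.1, k2⟩

end Ext

end Pool.Agent.Lib.MP_75a307_lc
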